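import Pool.Agent.K6.H47.SG.Main

set_option autoImplicit false

/-! # The points are given by a finite automaton -/

namespace Pool.Agent.K6.H47.SG

open Matrix Pool.Agent.TH717.GO

variable {K : Type} [Field K] {n r : ℕ}

theorem sub_mem_poly {T : Type} (A : Subalgebra K (T → K)) {k : Type} [Field k] [Algebra k K]
    {ι : Type} (φ : T → ι → K) (hφ : ∀ i, (fun t => φ t i) ∈ A) (F : MvPolynomial ι k) :
    (fun t => MvPolynomial.aeval (φ t) F) ∈ A := by
  induction F using MvPolynomial.induction_on with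
  | C a =>
    simp only [MvPolynomial.algHom_C]
    exact A.algebraMap_mem (algebraMap k K a)
  | add p q hp hq =>
    simp only [map_add]
    exact A.add_mem hp hq
  | mul_X p i hp =>
    simp only [map_mul, MvPolynomial.aeval_X]
    exact A.mul_mem hp (hφ i)

theorem pf_vec (M : Matrix (Fin (n + 1)) (Fin r) K) (v : Fin r → K) (i : Fin (n + 1)) :
    (fun z : Mt r K => M.mulVec (z.mulVec v) i) ∈ PF r K := by
  have : (fun z : Mt r K => M.mulVec (z.mulVec v) i) =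
      ∑ a, ∑ b, (fun _ => M i a * v b) * fun z : Mt r K => z a b := by
    funext z
    rw [Finset.sum_apply, mulVec, dotProduct]
    refine Finset.sum_congr rfl fun a _ => ?_
    rw [Finset.sum_apply, mulVec, dotProduct, Finset.mul_sum]
    refine Finset.sum_congr rfl fun b _ => ?_
    rw [Pi.mul_apply]
    ring
  rw [this]
  exact Subalgebra.sum_mem _ fun a _ => Subalgebra.sum_mem _ fun b _ =>
    Subalgebra.mul_mem _ (const_mem _ _) (ent_id a b)

/-- being on a line is a closed condition -/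
theorem line_cl {Y : Set (Mt r K)} (M : Matrix (Fin (n + 1)) (Fin r) K) (v : Fin r → K)
    (c : Fin (n + 1) → K) (h : ∀ z ∈ Y, ∃ s : K, M.mulVec (z.mulVec v) = s • c) {z : Mt r K}
    (hz : z ∈ cl Y) : ∃ s : K, M.mulVec (z.mulVec v) = s • c := by
  by_cases hc : c = 0
  · refine ⟨0, ?_⟩
    funext i
    rw [zero_smul]
    refine hz _ (pf_vec M v i) fun y hy => ?_
    obtain ⟨s, hs⟩ := h y hy
    rw [hs, hc, smul_zero]
    rfl
  · obtain ⟨j, hj⟩ := Function.ne_iff.1 hc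
    have hj' : c j ≠ 0 := hj
    refine ⟨M.mulVec (z.mulVec v) j / c j, ?_⟩
    funext i
    rw [Pi.smul_apply, smul_eq_mul, div_mul_eq_mul_div, eq_div_iff hj']
    have h1 : (fun z : Mt r K => M.mulVec (z.mulVec v) i * c j - M.mulVec (z.mulVec v) j * c i)
        ∈ PF r K := (PF r K).sub_mem ((PF r K).mul_mem (pf_vec M v i) (const_mem _ _))
          ((PF r K).mul_mem (pf_vec M v j) (const_mem _ _))
    refine sub_eq_zero.1 (hz _ h1 fun y hy => ?_)
    obtain ⟨s, hs⟩ := h y hy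
    rw [hs]
    simp only [Pi.smul_apply, smul_eq_mul]
    ring

/-- **Points given by words lie on lines given by a finite automaton.** -/
theorem auto_core {k : Type} [Field k] {FF : Set (MvPolynomial (Fin (n + 1)) k)} [Algebra k K]
    (hs : Setup k n FF K) {I : Type} [Finite I] (Q : I → Set (Mt r K))
    (hQ : ∀ i, GoodSet (cone FF K) (Q i)) (M : Matrix (Fin (n + 1)) (Fin r) K) (v : Fin r → K)
    (hX : ∀ w, ∀ z ∈ prodSet Q w, M.mulVec (z.mulVec v) ∈ cone FF K) :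
    ∃ (st : Type) (_ : Finite st) (s0 : st) (δ : I → st → st) (c : st → Fin (n + 1) → K),
      ∀ w, ∀ z ∈ prodSet Q w, ∃ s : K, M.mulVec (z.mulVec v) = s • c (w.foldr δ s0) := by
  classical
  let Sg : Set (Mt r K) := {z | ∃ w, z ∈ prodSet Q w}
  have hS : Mon (cl Sg) :=
    { one := subset_cl _ ⟨[], rfl⟩
      mul := fun a ha b hb => cl_mul (S := Sg) (S' := Sg) (U := Sg)
        (fun s ⟨w, hs⟩ s' ⟨w', hs'⟩ => subset_cl _ ⟨w ++ w', (mem_append Q).2
          ⟨s, hs, s', hs', rfl⟩⟩) ha hb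
      closed := cl_cl _ }
  have hQS : ∀ i, Q i ⊆ cl Sg := fun i z hz => subset_cl _ ⟨[i], (mem_single Q).2 hz⟩
  obtain ⟨Ys0, hfin0, hgood0, hcov0⟩ := word_cover hs hS r I Q hQ (fun _ q _ => fac_self q) hQS
  -- add the identity matrix
  obtain ⟨Ys, hgood, hone, hcov⟩ : ∃ Ys : Finset (Set (Mt r K)),
      (∀ Y ∈ Ys, GoodSet (cone FF K) Y ∧ Y ⊆ cl Sg) ∧ {1} ∈ Ys ∧
        ∀ w, ∃ Y ∈ Ys, prodSet Q w ⊆ cl Y := by
    refine ⟨insert {1} hfin0.toFinset, ?_, Finset.mem_insert_self _ _, ?_⟩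
    · intro Y hY
      rcases Finset.mem_insert.1 hY with rfl | hY
      · refine ⟨goodSet_singleton 1, ?_⟩
        rintro _ rfl
        exact hS.one
      · exact hgood0 Y (hfin0.mem_toFinset.1 hY)
    · intro w
      by_cases hw : w = []
      · subst hw
        exact ⟨{1}, Finset.mem_insert_self _ _, subset_cl _⟩
      · obtain ⟨Y, hY, h⟩ := hcov0 w hw
        exact ⟨Y, Finset.mem_insert_of_mem (hfin0.mem_toFinset.2 hY), h⟩
  have hall : ∀ z ∈ cl Sg, ∃ Y ∈ Ys, z ∈ cl Y := by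
    intro z hz
    have h1 : z ∈ cl {w | ∃ Y ∈ Ys, w ∈ cl Y} := by
      refine cl_mono ?_ hz
      rintro y ⟨w, hy⟩
      obtain ⟨Y, hY, h⟩ := hcov w
      exact ⟨Y, hY, h hy⟩
    obtain ⟨Y, hY, h⟩ := cl_iUnion Ys (fun Y => cl Y) h1
    exact ⟨Y, hY, cl_cl _ h⟩
  -- transitions
  have hδ : ∀ (i : I) (Y : Ys), ∃ Y' : Ys, mulSet (Q i) Y.1 ⊆ cl Y'.1 := by
    intro i Y
    obtain ⟨T, A, m, hA, hm, hr⟩ := (hQ i).mulSet (hgood Y.1 Y.2).1
    have hsub : mulSet (Q i) Y.1 ⊆ cl Sg := mulSet_sub hS (hQS i) (hgood Y.1 Y.2).2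
    obtain ⟨t⟩ := hA.ne
    obtain ⟨Y', hY', h⟩ := hA.subset_of_generic hm Ys (fun Y => Y) (const_mem A 1)
      ⟨t, one_ne_zero⟩ (fun t _ => hall _ (hsub (by rw [← hr]; exact ⟨t, rfl⟩)))
    refine ⟨⟨Y', hY'⟩, ?_⟩
    rw [← hr]
    rintro _ ⟨t, rfl⟩
    exact h t
  choose δ hδ using hδ
  -- lines
  have hc : ∀ Y : Ys, ∃ c : Fin (n + 1) → K, ∀ z ∈ Y.1, ∃ s : K, M.mulVec (z.mulVec v) = s • c := by
    intro Y
    obtain ⟨hYg, hYS⟩ := hgood Y.1 Y.2
    obtain ⟨T, A, m, hA, hm, hr⟩ := hYg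
    obtain ⟨c, hc⟩ := hA.triv (fun t => M.mulVec ((m t).mulVec v))
      (fun i => pf_comp hm (pf_vec M v i)) (fun t F hF => by
        have h1 : m t ∈ cl Sg := hYS (by rw [← hr]; exact ⟨t, rfl⟩)
        refine h1 (fun z => MvPolynomial.aeval (M.mulVec (z.mulVec v)) F)
          (sub_mem_poly _ _ (pf_vec M v) F) ?_
        rintro z ⟨w, hz⟩
        exact hX w z hz F hF)
    refine ⟨c, ?_⟩
    rw [← hr]
    rintro _ ⟨t, rfl⟩
    exact hc t
  choose c hc using hc
  refine ⟨Ys, inferInstance, ⟨{1}, hone⟩, δ, c, ?_⟩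
  have key : ∀ w, prodSet Q w ⊆ cl (w.foldr δ (⟨{1}, hone⟩ : Ys)).1 := by
    intro w
    induction w with
    | nil => exact subset_cl _
    | cons i w ih =>
      rintro _ ⟨q, hq, y, hy, rfl⟩
      rw [List.foldr_cons]
      exact cl_le (hδ i _) (cl_mulSet (subset_cl _ hq) (ih hy))
  intro w z hz
  exact line_cl M v _ (hc _) (key w hz)

end Pool.Agent.K6.H47.SG
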