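import Pool.Agent.K6.H47.SG.Words
import Pool.Agent.TH717.GO.Hyb2
import Pool.Agent.TH409.SH.Fin2

set_option autoImplicit false

/-! # A rational curve gives infinite families -/

namespace Pool.Agent.K6.H47.SG

open Matrix Pool.Agent.TH717.GO

/-- the number of digits -/
theorem len_shift (q : ℕ) (hq : 2 ≤ q) (e : ℕ) : ∀ (j m : ℕ), j < q ^ e → 1 ≤ m →
    (Nat.digits q (q ^ e * m + j)).length = e + (Nat.digits q m).length := by
  induction e with
  | zero =>
    intro j m hj _
    rw [pow_zero, Nat.lt_one_iff] at hj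
    subst hj
    simp
  | succ e ih =>
    intro j m hj hm
    have hq0 : 0 < q := by omega
    have hj' : j / q < q ^ e := by
      rw [Nat.div_lt_iff_lt_mul hq0, ← pow_succ]
      exact hj
    have h1 : q ^ (e + 1) * m + j = j % q + q * (q ^ e * m + j / q) := by
      have := Nat.mod_add_div j q
      rw [pow_succ]
      nlinarith
    have hpos : 0 < q ^ e := Nat.pow_pos hq0
    rw [h1, Nat.digits_add q (by omega) _ _ (Nat.mod_lt _ hq0) (Or.inr
      (Nat.add_pos_left (Nat.mul_pos hpos hm) _).ne'), List.length_cons, ih _ _ hj' hm]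
    omega

variable {n : ℕ}

theorem conv_pow {k : Type} [Field k] [NumberField k] (σ : k →+* ℂ)
    (FF : Set (MvPolynomial (Fin (n + 1)) k)) (h : ¬ NoRatC σ FF) :
    ∃ (r : ℕ) (K : Type) (_ : Field K) (_ : NumberField K) (_ : Algebra k K)
      (g : Mt r K) (M : Matrix (Fin (n + 1)) (Fin r) K) (v : Fin r → K),
      (∀ m : ℕ, ∀ F ∈ FF, MvPolynomial.aeval (M.mulVec ((g ^ m).mulVec v)) F = 0) ∧
      {P : Projectivization K (Fin (n + 1) → K) | ∃ (m : ℕ)
        (h0 : M.mulVec ((g ^ m).mulVec v) ≠ 0), P = Projectivization.mk K _ h0}.Infinite := by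
  obtain ⟨r, K, iK, iN, iA, ρ, M, v, -, hX, hinf⟩ := converse_noRat σ FF h
  let g : ℤ → GL (Fin r) K := fun z => ρ (Multiplicative.ofAdd z)
  have hpos : ∀ m : ℕ, ((g 1 : GL (Fin r) K) : Mt r K) ^ m = (g m : GL (Fin r) K) := by
    intro m
    rw [← Units.val_pow_eq_pow_val]
    change ((ρ (Multiplicative.ofAdd (1 : ℤ)) ^ m : GL (Fin r) K) : Mt r K) = _
    rw [← map_pow, ← ofAdd_nsmul]
    simp [g]
  have hneg : ∀ m : ℕ, ((g (-1) : GL (Fin r) K) : Mt r K) ^ m = (g (-m) : GL (Fin r) K) := by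
    intro m
    rw [← Units.val_pow_eq_pow_val]
    change ((ρ (Multiplicative.ofAdd (-1 : ℤ)) ^ m : GL (Fin r) K) : Mt r K) = _
    rw [← map_pow, ← ofAdd_nsmul]
    simp [g]
  have hX' : ∀ z : ℤ, ∀ F ∈ FF,
      MvPolynomial.aeval (M.mulVec (((g z : GL (Fin r) K) : Mt r K).mulVec v)) F = 0 :=
    fun z => hX (Multiplicative.ofAdd z)
  by_cases hp : {P : Projectivization K (Fin (n + 1) → K) | ∃ (m : ℕ)
      (h0 : M.mulVec ((((g 1 : GL (Fin r) K) : Mt r K) ^ m).mulVec v) ≠ 0),
        P = Projectivization.mk K _ h0}.Infinite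
  · exact ⟨r, K, iK, iN, iA, _, M, v, fun m F hF => by rw [hpos]; exact hX' m F hF, hp⟩
  · refine ⟨r, K, iK, iN, iA, ((g (-1) : GL (Fin r) K) : Mt r K), M, v,
      fun m F hF => by rw [hneg]; exact hX' (-m) F hF, ?_⟩
    intro hfin
    rw [Set.not_infinite] at hp
    refine hinf ((hp.union hfin).subset ?_)
    rintro P ⟨z, h0, rfl⟩
    obtain ⟨m, hm | hm⟩ := Int.eq_nat_or_neg (Multiplicative.toAdd z)
    · left
      have e : orb M ρ v z = M.mulVec ((((g 1 : GL (Fin r) K) : Mt r K) ^ m).mulVec v) := by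
        rw [hpos]
        change M.mulVec ((ρ z : Mt r K).mulVec v) = _
        rw [show z = Multiplicative.ofAdd (m : ℤ) from hm]
      refine ⟨m, by rw [← e]; exact h0, ?_⟩
      simp only [e]
    · right
      have e : orb M ρ v z = M.mulVec ((((g (-1) : GL (Fin r) K) : Mt r K) ^ m).mulVec v) := by
        rw [hneg]
        change M.mulVec ((ρ z : Mt r K).mulVec v) = _
        rw [show z = Multiplicative.ofAdd (-(m : ℤ)) from hm]
      refine ⟨m, by rw [← e]; exact h0, ?_⟩
      simp only [e]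

/-- sequences depending on the number of digits -/
theorem len_regular {K : Type} [Field K] {r : ℕ} (q : ℕ) (hq : 2 ≤ q) (g : Mt r K)
    (M : Matrix (Fin (n + 1)) (Fin r) K) (v : Fin r → K) :
    (Submodule.span K (kernel q fun m =>
      M.mulVec ((g ^ (Nat.digits q m).length).mulVec v))).FG := by
  classical
  let T1 : (Fin r → K) →ₗ[K] (ℕ → Fin (n + 1) → K) :=
    { toFun := fun u m => M.mulVec ((g ^ (Nat.digits q m).length).mulVec u)
      map_add' := fun u w => by funext m; simp only [Pi.add_apply, mulVec_add]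
      map_smul' := fun c u => by
        funext m; simp only [Pi.smul_apply, mulVec_smul, RingHom.id_apply] }
  let T2 : (Fin (n + 1) → K) →ₗ[K] (ℕ → Fin (n + 1) → K) :=
    { toFun := fun u m => if m = 0 then u else 0
      map_add' := fun u w => by
        funext m
        by_cases h : m = 0
        · simp [h]
        · simp [h]
      map_smul' := fun c u => by
        funext m
        by_cases h : m = 0
        · simp [h]
        · simp [h] }
  have hfg : (LinearMap.range T1 ⊔ LinearMap.range T2).FG :=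
    (Submodule.FG.sup (by
      have h := (Module.Finite.fg_top (R := K) (M := Fin r → K)).map T1
      rwa [Submodule.map_top] at h) (by
      have h := (Module.Finite.fg_top (R := K) (M := Fin (n + 1) → K)).map T2
      rwa [Submodule.map_top] at h))
  have hfin : Module.Finite K ↥(LinearMap.range T1 ⊔ LinearMap.range T2) :=
    Module.Finite.iff_fg.2 hfg
  have hle : Submodule.span K (kernel q fun m =>
      M.mulVec ((g ^ (Nat.digits q m).length).mulVec v)) ≤
      LinearMap.range T1 ⊔ LinearMap.range T2 := by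
    rw [Submodule.span_le]
    rintro _ ⟨e, j, hj, rfl⟩
    rw [SetLike.mem_coe, Submodule.mem_sup]
    refine ⟨T1 ((g ^ e).mulVec v), ⟨_, rfl⟩,
      T2 (M.mulVec ((g ^ (Nat.digits q j).length).mulVec v) - M.mulVec ((g ^ e).mulVec v)),
      ⟨_, rfl⟩, ?_⟩
    funext m
    change M.mulVec ((g ^ (Nat.digits q m).length).mulVec ((g ^ e).mulVec v)) +
      (if m = 0 then _ else 0) = _
    by_cases hm : m = 0
    · subst hm
      simp
    · rw [if_neg hm, add_zero]
      change _ = M.mulVec ((g ^ (Nat.digits q (q ^ e * m + j)).length).mulVec v)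
      rw [len_shift q hq e j m hj (by omega), add_comm e, pow_add, ← mulVec_mulVec _ (g ^ _)]
  exact Module.Finite.iff_fg.1 (Submodule.finiteDimensional_of_le hle)

theorem conv_regular {k : Type} [Field k] [NumberField k] (σ : k →+* ℂ)
    (FF : Set (MvPolynomial (Fin (n + 1)) k)) (h : ¬ NoRatC σ FF) (q : ℕ) (hq : 2 ≤ q) :
    ∃ (K : Type) (_ : Field K) (_ : NumberField K) (_ : Algebra k K)
      (x : ℕ → Fin (n + 1) → K), (Submodule.span K (kernel q x)).FG ∧
      (∀ m : ℕ, ∀ F ∈ FF, MvPolynomial.aeval (x m) F = 0) ∧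
      {P : Projectivization K (Fin (n + 1) → K) | ∃ (m : ℕ)
        (h0 : x m ≠ 0), P = Projectivization.mk K _ h0}.Infinite := by
  obtain ⟨r, K, iK, iN, iA, g, M, v, hX, hinf⟩ := conv_pow σ FF h
  refine ⟨K, iK, iN, iA, _, len_regular q hq g M v, fun m F hF => hX _ F hF, ?_⟩
  refine hinf.mono ?_
  rintro P ⟨m, h0, rfl⟩
  -- a number with `m` digits
  obtain ⟨N, hN⟩ : ∃ N, (Nat.digits q N).length = m := by
    rcases Nat.eq_zero_or_pos m with rfl | hm
    · exact ⟨0, by simp⟩
    · refine ⟨q ^ (m - 1) * 1 + 0, ?_⟩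
      rw [len_shift q hq (m - 1) 0 1 (Nat.pow_pos (by omega)) le_rfl,
        Nat.digits_of_lt q 1 one_ne_zero (by omega)]
      simp only [List.length_singleton]
      omega
  have e : M.mulVec ((g ^ (Nat.digits q N).length).mulVec v) = M.mulVec ((g ^ m).mulVec v) := by
    rw [hN]
  refine ⟨N, by rw [e]; exact h0, ?_⟩
  simp only [e]

end Pool.Agent.K6.H47.SG
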