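import Pool.Agent.K6.H47.SG.Loop

set_option autoImplicit false

/-! # Closed paths -/

namespace Pool.Agent.K6.H47.SG

open Matrix Pool.Agent.TH717.GO

variable {K : Type} [Field K] {n r : ℕ} {X : Set (Fin (n + 1) → K)}

/-- products of two sets -/
def mulSet (Y Y' : Set (Mt r K)) : Set (Mt r K) := {z | ∃ y ∈ Y, ∃ y' ∈ Y', z = y * y'}

theorem GoodSet.mulSet {Y Y' : Set (Mt r K)} (h : GoodSet X Y) (h' : GoodSet X Y') :
    GoodSet X (mulSet Y Y') := h.mul h'

section cyc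

variable {ρ : ℕ} {c : Mt r K} {J : Matrix (Fin r) (Fin ρ) K} {V : Matrix (Fin ρ) (Fin r) K}
  {g : Mt ρ K}

theorem jv_c (hVJ : V * J = 1) (hc : c = J * g * V) : J * V * c = c := by
  rw [hc]
  calc J * V * (J * g * V) = J * (V * J) * g * V := by simp only [Matrix.mul_assoc]
    _ = J * g * V := by rw [hVJ, Matrix.mul_one]

theorem c_jv (hVJ : V * J = 1) (hc : c = J * g * V) : c * (J * V) = c := by
  rw [hc]
  calc J * g * V * (J * V) = J * g * (V * J) * V := by simp only [Matrix.mul_assoc]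
    _ = J * g * V := by rw [hVJ, Matrix.mul_one]

theorem j_g_v (hVJ : V * J = 1) (hc : c = J * g * V) (x : Mt r K) :
    J * (V * (c * x * c) * J) * V = c * x * c := by
  calc J * (V * (c * x * c) * J) * V = (J * V * c) * x * (c * (J * V)) := by
        simp only [Matrix.mul_assoc]
    _ = c * x * c := by rw [jv_c hVJ hc, c_jv hVJ hc]

theorem det_of_rk (hVJ : V * J = 1) (hc : c = J * g * V) {x : Mt r K} (h : Rk ρ (c * x * c)) :
    (V * (c * x * c) * J).det ≠ 0 := by
  obtain ⟨S, R, h⟩ := h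
  have e1 : V * (c * x * c) * J = g * V * x * J * g := by
    rw [hc]
    calc V * (J * g * V * x * (J * g * V)) * J
        = (V * J) * g * V * x * J * g * (V * J) := by simp only [Matrix.mul_assoc]
      _ = g * V * x * J * g := by rw [hVJ, Matrix.one_mul, Matrix.mul_one]
  have e2 : S * (c * x * c) * R = (S * J) * (g * V * x * J * g) * (V * R) := by
    rw [hc]
    simp only [Matrix.mul_assoc]
  rw [e2, det_mul, det_mul] at h
  rw [e1]
  exact right_ne_zero_of_mul (left_ne_zero_of_mul h)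

end cyc

theorem loop_cover {k : Type} [Field k] {FF : Set (MvPolynomial (Fin (n + 1)) k)} [Algebra k K]
    (hs : Setup k n FF K) {S : Set (Mt r K)} (hS : Mon S) {I : Type} {Q : I → Set (Mt r K)}
    {ρ : ℕ} (hQ : ∀ i, GoodSet (cone FF K) (Q i)) (hF : ∀ i, ∀ q ∈ Q i, Fac ρ q)
    (hQS : ∀ i, Q i ⊆ S) {i j : I} (hji : Edge Q ρ j i) :
    ∃ Ys : Set (Set (Mt r K)), Ys.Finite ∧
      (∀ Y ∈ Ys, GoodSet (cone FF K) Y ∧ Y ⊆ S ∧ ∀ z ∈ Y, ∃ q ∈ Q i, ∃ z', z = q * z') ∧
      ∀ w, Path (Edge Q ρ) i j w → ∃ Y ∈ Ys, prodSet Q w ⊆ cl Y := by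
  classical
  by_cases hex : ∃ w, Path (Edge Q ρ) i j w
  swap
  · push Not at hex
    exact ⟨∅, Set.finite_empty, fun Y hY => absurd hY (Set.notMem_empty Y),
      fun w hw => absurd hw (hex w)⟩
  obtain ⟨w0, hw0⟩ := hex
  obtain ⟨c, hcmem, hcc⟩ := exists_cc hQ hF hw0 hji
  have hw1 := hw0.append hji hw0
  obtain ⟨mid, hmid⟩ : ∃ mid, w0 ++ w0 = i :: (mid ++ [j]) := by
    rcases hw1.split with ⟨-, h1⟩ | h1
    · exfalso
      have h2 := congrArg List.length h1
      rw [List.length_append, List.length_singleton] at h2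
      have h3 : 0 < w0.length := List.length_pos_iff.2 hw0.ne_nil
      omega
    · exact h1
  have hcS : c ∈ S := prodSet_sub Q hS hQS _ hcmem
  have hcF : Fac ρ c := prodSet_fac Q hF hw1.ne_nil hcmem
  rw [hmid] at hcmem
  obtain ⟨p, hp, crest, hcrest, hc1⟩ := hcmem
  obtain ⟨u0, hu0, qc', hqc', hc2⟩ := (mem_append Q).1 hcrest
  have hqc := (mem_single Q).1 hqc'
  set cinit := p * u0 with hcinit
  have hc3 : c = cinit * qc' := by rw [hc1, hc2, hcinit, mul_assoc]
  have hcrestS : crest ∈ S := prodSet_sub Q hS hQS _ hcrest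
  have hcinitS : cinit ∈ S := hS.mul _ (hQS i hp) _ (prodSet_sub Q hS hQS _ hu0)
  obtain ⟨J, V, g, hVJ, hc, hg⟩ := exists_JK hcF hcc
  -- the group
  let Γ : Set (GL (Fin ρ) K) := {h | J * (h : Mt ρ K) * V ∈ S}
  have hΓmul : ∀ a ∈ Γ, ∀ b ∈ Γ, a * b ∈ Γ := by
    intro a ha b hb
    change J * ((a * b : GL (Fin ρ) K) : Mt ρ K) * V ∈ S
    have e : J * ((a * b : GL (Fin ρ) K) : Mt ρ K) * V =
        (J * (a : Mt ρ K) * V) * (J * (b : Mt ρ K) * V) := by
      rw [GeneralLinearGroup.coe_mul]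
      calc J * ((a : Mt ρ K) * (b : Mt ρ K)) * V
          = J * (a : Mt ρ K) * (1 : Mt ρ K) * (b : Mt ρ K) * V := by
            rw [Matrix.mul_one]
            simp only [Matrix.mul_assoc]
        _ = _ := by rw [← hVJ]; simp only [Matrix.mul_assoc]
    rw [e]
    exact hS.mul _ ha _ hb
  have hΓ : ∀ (x : Mt r K) (hx : (V * (c * x * c) * J).det ≠ 0), x ∈ S →
      GeneralLinearGroup.mkOfDetNeZero (V * (c * x * c) * J) hx ∈ Γ := by
    intro x hx hxS
    change J * (V * (c * x * c) * J) * V ∈ S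
    rw [j_g_v hVJ hc]
    exact hS.mul _ (hS.mul _ hcS _ hxS) _ hcS
  let H : Subgroup (GL (Fin ρ) K) := Subgroup.closure Γ
  let rep : H →* GL (Fin ρ) K := H.subtype
  obtain ⟨N, I0, hirr, hcos⟩ := exists_irr rep
  let Mid : H → Set (Mt r K) := fun g0 =>
    Set.range fun t : N => crest * c * J * ((g0 * (t : H) : H) : GL (Fin ρ) K).1 * V * c * cinit
  have hMid : ∀ g0, GoodSet (cone FF K) (Mid g0) := by
    intro g0
    refine ⟨N, pol (rep.comp N.subtype), _, hs.good _ hirr, ?_, rfl⟩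
    have h1 : Ent (pol (rep.comp N.subtype))
        fun t : N => ((g0 * (t : H) : H) : GL (Fin ρ) K).1 := by
      have h2 := Ent.mul (Ent.const (pol (rep.comp N.subtype)) (g0 : GL (Fin ρ) K).1)
        (pol_ent (rep.comp N.subtype))
      exact h2
    exact Ent.mul (Ent.mul (Ent.mul (Ent.mul (Ent.const _ (crest * c * J)) h1) (Ent.const _ V))
      (Ent.const _ c)) (Ent.const _ cinit)
  have hin : ∀ q ∈ Q i, ∀ q' ∈ Q j, ∀ h : H,
      q * (crest * c * J * (h : GL (Fin ρ) K).1 * V * c * cinit) * q' ∈ S := by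
    intro q hq q' hq' h
    apply hS.closed
    intro f hf hf0
    let φ : H → K := fun h => f (q * (crest * c * J * (h : GL (Fin ρ) K).1 * V * c * cinit) * q')
    have hφ : φ ∈ pol rep := by
      refine pf_comp (A := pol rep)
        (m := fun h : H => q * (crest * c * J * (h : GL (Fin ρ) K).1 * V * c * cinit) * q') ?_ hf
      exact Ent.mul (Ent.mul (Ent.const _ q) (Ent.mul (Ent.mul (Ent.mul (Ent.mul
        (Ent.const _ (crest * c * J)) (pol_ent rep)) (Ent.const _ V)) (Ent.const _ c))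
        (Ent.const _ cinit))) (Ent.const _ q')
    refine dense_semigroup rep ((↑) ⁻¹' Γ : Set H) ?_ ?_ ?_ hφ ?_ h
    · have h1 : GeneralLinearGroup.mkOfDetNeZero g hg ∈ Γ := by
        change J * g * V ∈ S
        rw [← hc]
        exact hcS
      exact ⟨⟨_, Subgroup.subset_closure h1⟩, h1⟩
    · intro a ha b hb
      exact hΓmul _ ha _ hb
    · exact Subgroup.closure_closure_coe_preimage
    · intro a ha
      apply hf0
      have e : q * (crest * c * J * (a : GL (Fin ρ) K).1 * V * c * cinit) * q' =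
          q * crest * c * (J * (a : GL (Fin ρ) K).1 * V) * c * (cinit * q') := by
        simp only [Matrix.mul_assoc]
      rw [e]
      exact hS.mul _ (hS.mul _ (hS.mul _ (hS.mul _ (hS.mul _ (hQS i hq) _ hcrestS) _ hcS) _ ha)
        _ hcS) _ (hS.mul _ hcinitS _ (hQS j hq'))
  let F : H → Set (Mt r K) := fun g0 => mulSet (mulSet (Q i) (Mid g0)) (Q j)
  refine ⟨insert (Q i) ((I0.image F : Finset (Set (Mt r K))) : Set (Set (Mt r K))),
    (Finset.finite_toSet _).insert _, ?_, ?_⟩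
  · intro Y hY
    rcases hY with rfl | hY
    · exact ⟨hQ i, hQS i, fun z hz => ⟨z, hz, 1, (mul_one z).symm⟩⟩
    · rw [Finset.mem_coe, Finset.mem_image] at hY
      obtain ⟨g0, -, rfl⟩ := hY
      refine ⟨((hQ i).mulSet (hMid g0)).mulSet (hQ j), ?_, ?_⟩
      · rintro _ ⟨_, ⟨q, hq, _, ⟨t, rfl⟩, rfl⟩, q', hq', rfl⟩
        exact hin q hq q' hq' _
      · rintro _ ⟨_, ⟨q, hq, m, _, rfl⟩, q', _, rfl⟩
        exact ⟨q, hq, m * q', mul_assoc _ _ _⟩
  · intro w hw
    rcases hw.split with ⟨-, rfl⟩ | ⟨mid', rfl⟩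
    · refine ⟨Q i, Set.mem_insert _ _, fun z hz => subset_cl _ ((mem_single Q).1 hz)⟩
    -- the generic products
    obtain ⟨T1, A1, m1, hA1, hm1, hr1⟩ := hQ i
    obtain ⟨T2, A2, m2, hA2, hm2, hr2⟩ := prodSet_good Q hQ mid'
    obtain ⟨T3, A3, m3, hA3, hm3, hr3⟩ := hQ j
    have hA := (hA1.prod hA2).prod hA3
    set A := sep (sep A1 A2) A3
    have hM1 : Ent A fun t => m1 t.1.1 := fun a b => fst_mem A3 (fst_mem A2 (hm1 a b))
    have hM2 : Ent A fun t => m2 t.1.2 := fun a b => fst_mem A3 (snd_mem A1 (hm2 a b))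
    have hM3 : Ent A fun t => m3 t.2 := fun a b => snd_mem (sep A1 A2) (hm3 a b)
    have hM : Ent A fun t => m1 t.1.1 * m2 t.1.2 * m3 t.2 := (hM1.mul hM2).mul hM3
    have hdet : ∀ (x : (T1 × T2) × T3 → Mt r K), Ent A x →
        (fun t => (V * (c * x t * c) * J).det) ∈ A := fun x hx =>
      Ent.det (Ent.mul (Ent.mul (Ent.const _ V) (Ent.mul (Ent.mul (Ent.const _ c) hx)
        (Ent.const _ c))) (Ent.const _ J))
    obtain ⟨t1⟩ := hA1.ne
    obtain ⟨t2⟩ := hA2.ne
    obtain ⟨t3⟩ := hA3.ne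
    have hccc : Rk ρ (c * c * c) := frob hcF hcc hcc
    obtain ⟨tp, htp⟩ : ∃ t, m1 t = p := by rw [← hr1] at hp; exact hp
    obtain ⟨tq, htq⟩ : ∃ t, m3 t = qc' := by rw [← hr3] at hqc; exact hqc
    obtain ⟨y, hy, hyr⟩ := path_rk hQ hF hw c c
      ⟨p, hp, by
        have h1 : Rk ρ (c * p * crest) := by
          have h0 := hcc
          nth_rewrite 2 [hc1] at h0
          rwa [← mul_assoc] at h0
        exact h1.of_mul_right⟩
      ⟨qc', hqc, by
        have h1 : Rk ρ (cinit * (qc' * c)) := by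
          have h0 := hcc
          nth_rewrite 1 [hc3] at h0
          rwa [mul_assoc] at h0
        exact h1.of_mul_left⟩
    obtain ⟨q1, hq1, y', hy', rfl⟩ := hy
    obtain ⟨u1, hu1, q3', hq3', rfl⟩ := (mem_append Q).1 hy'
    have hq3 := (mem_single Q).1 hq3'
    obtain ⟨s1, rfl⟩ : ∃ t, m1 t = q1 := by rw [← hr1] at hq1; exact hq1
    obtain ⟨s2, rfl⟩ : ∃ t, m2 t = u1 := by rw [← hr2] at hu1; exact hu1
    obtain ⟨s3, rfl⟩ : ∃ t, m3 t = q3' := by rw [← hr3] at hq3; exact hq3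
    have hG1 := hdet (fun t => m1 t.1.1 * crest) (hM1.mul (Ent.const _ crest))
    have hG2 := hdet (fun t => cinit * m3 t.2) ((Ent.const _ cinit).mul hM3)
    have hG3 := hdet _ hM
    obtain ⟨t0, hz1, hz2, hz3⟩ := hA.exists_ne3 hG1 hG2 hG3
      ⟨((tp, t2), t3), det_of_rk hVJ hc (by
        change Rk ρ (c * (m1 tp * crest) * c)
        rw [htp, ← hc1]
        exact hccc)⟩
      ⟨((t1, t2), tq), det_of_rk hVJ hc (by
        change Rk ρ (c * (cinit * m3 tq) * c)
        rw [htq, ← hc3]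
        exact hccc)⟩
      ⟨((s1, s2), s3), det_of_rk hVJ hc (by
        change Rk ρ (c * (m1 s1 * m2 s2 * m3 s3) * c)
        rwa [mul_assoc (m1 s1)])⟩
    obtain ⟨g0, hg0, hsub⟩ := hA.subset_of_generic hM I0 F
      (A.mul_mem (A.mul_mem hG1 hG2) hG3) ⟨t0, mul_ne_zero (mul_ne_zero hz1 hz2) hz3⟩ (by
        rintro ⟨⟨t1, t2⟩, t3⟩ ht
        have ht1 := left_ne_zero_of_mul (left_ne_zero_of_mul ht)
        have ht2 := right_ne_zero_of_mul (left_ne_zero_of_mul ht)
        have ht3 := right_ne_zero_of_mul ht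
        have hq : m1 t1 ∈ Q i := by rw [← hr1]; exact ⟨t1, rfl⟩
        have hq' : m3 t3 ∈ Q j := by rw [← hr3]; exact ⟨t3, rfl⟩
        have hu : m2 t2 ∈ prodSet Q mid' := by rw [← hr2]; exact ⟨t2, rfl⟩
        set q := m1 t1
        set u := m2 t2
        set q' := m3 t3
        change (V * (c * (q * crest) * c) * J).det ≠ 0 at ht1
        change (V * (c * (cinit * q') * c) * J).det ≠ 0 at ht2
        change (V * (c * (q * u * q') * c) * J).det ≠ 0 at ht3
        have g1 := hΓ _ ht1 (hS.mul _ (hQS i hq) _ hcrestS)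
        have g2 := hΓ _ ht2 (hS.mul _ hcinitS _ (hQS j hq'))
        have g3 := hΓ _ ht3 (hS.mul _ (hS.mul _ (hQS i hq) _ (prodSet_sub Q hS hQS _ hu)) _
          (hQS j hq'))
        let h1 : H := ⟨_, Subgroup.subset_closure g1⟩
        let h2 : H := ⟨_, Subgroup.subset_closure g2⟩
        let h3 : H := ⟨_, Subgroup.subset_closure g3⟩
        obtain ⟨g0, hg0, hN⟩ := hcos (h1⁻¹ * h3 * h2⁻¹)
        refine ⟨g0, hg0, subset_cl _ ?_⟩
        change q * u * q' ∈ mulSet (mulSet (Q i) (Mid g0)) (Q j)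
        refine ⟨_, ⟨q, hq, _, ⟨⟨_, hN⟩, rfl⟩, rfl⟩, q', hq', ?_⟩
        have e1 : ((g0 * (g0⁻¹ * (h1⁻¹ * h3 * h2⁻¹)) : H) : GL (Fin ρ) K).1 =
            (V * (c * (q * crest) * c) * J)⁻¹ * (V * (c * (q * u * q') * c) * J) *
              (V * (c * (cinit * q') * c) * J)⁻¹ := by
          rw [mul_inv_cancel_left]
          change ((h1 : GL (Fin ρ) K)⁻¹ * (h3 : GL (Fin ρ) K) * (h2 : GL (Fin ρ) K)⁻¹).1 = _
          rw [Units.val_mul, Units.val_mul, coe_units_inv, coe_units_inv]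
          rfl
        change q * u * q' = q * (crest * c * J *
          ((g0 * (g0⁻¹ * (h1⁻¹ * h3 * h2⁻¹)) : H) : GL (Fin ρ) K).1 * V * c * cinit) * q'
        rw [e1]
        have f1 : V * (c * (q * crest) * c) * J = (V * c) * q * (crest * c * J) := by
          simp only [Matrix.mul_assoc]
        have f2 : V * (c * (cinit * q') * c) * J = (V * c * cinit) * q' * (c * J) := by
          simp only [Matrix.mul_assoc]
        rw [f1] at ht1 ⊢
        rw [f2] at ht2 ⊢
        have i1 := ginv (hF i q hq) (V * c) (crest * c * J) ht1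
        have i2 := ginv (hF j q' hq') (V * c * cinit) (c * J) ht2
        calc q * u * q' = (q * (crest * c * J) * (V * c * q * (crest * c * J))⁻¹ * (V * c * q)) *
              u * (q' * (c * J) * (V * c * cinit * q' * (c * J))⁻¹ * (V * c * cinit * q')) := by
              rw [i1, i2]
          _ = _ := by simp only [Matrix.mul_assoc])
    refine ⟨F g0, Set.mem_insert_of_mem _ (Finset.mem_coe.2 (Finset.mem_image_of_mem F hg0)), ?_⟩
    rintro _ ⟨q, hq, y, hy, rfl⟩
    obtain ⟨u, hu, q', hq', rfl⟩ := (mem_append Q).1 hy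
    have hq3 := (mem_single Q).1 hq'
    obtain ⟨t1, rfl⟩ : ∃ t, m1 t = q := by rw [← hr1] at hq; exact hq
    obtain ⟨t2, rfl⟩ : ∃ t, m2 t = u := by rw [← hr2] at hu; exact hu
    obtain ⟨t3, rfl⟩ : ∃ t, m3 t = q' := by rw [← hr3] at hq3; exact hq3
    have := hsub ((t1, t2), t3)
    rwa [mul_assoc] at this

end Pool.Agent.K6.H47.SG
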