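import Mathlib

set_option autoImplicit false

/-! # Regular sequences and words of matrices depending on elements of groups -/

namespace Pool.Agent.K6.H47.SG

open Matrix

/-- the `q`-kernel of a sequence: the sequences `x (q ^ e m + j)`, `j < q ^ e` -/
def kernel {V : Type} (q : ℕ) (x : ℕ → V) : Set (ℕ → V) :=
  {y | ∃ e j : ℕ, j < q ^ e ∧ y = fun m => x (q ^ e * m + j)}

section letters

variable {K : Type} [Field K] {n r : ℕ} {A : Type} {H : A → Type} [∀ a, Group (H a)] {d : A → ℕ}

/-- The matrix of size `r` represented by the letter `a` with the parameter `h` in the group `H a`: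
its entries are the values of the polynomials `P a i j` at the entries of the matrix `ρ a h`. -/
noncomputable def letterMat (ρ : ∀ a, H a →* GL (Fin (d a)) K)
    (P : ∀ a, Fin r → Fin r → MvPolynomial (Fin (d a) × Fin (d a)) K) (x : Σ a, H a) :
    Matrix (Fin r) (Fin r) K :=
  Matrix.of fun i j => MvPolynomial.aeval
    (fun p : Fin (d x.1) × Fin (d x.1) => (ρ x.1 x.2 : Matrix _ _ K) p.1 p.2) (P x.1 i j)

/-- The vector `M B₁ ⋯ B_m v`, where the matrices `B_i` are represented by the letters of the
word. -/
noncomputable def wordVec (ρ : ∀ a, H a →* GL (Fin (d a)) K)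
    (P : ∀ a, Fin r → Fin r → MvPolynomial (Fin (d a) × Fin (d a)) K)
    (M : Matrix (Fin (n + 1)) (Fin r) K) (v : Fin r → K) (w : List (Σ a, H a)) :
    Fin (n + 1) → K :=
  M.mulVec ((w.map (letterMat ρ P)).prod.mulVec v)

end letters

end Pool.Agent.K6.H47.SG
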