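import Pool.Agent.K6.H47.SG.Rk

set_option autoImplicit false

/-! # Irreducible families of points without nonconstant maps to a variety -/

namespace Pool.Agent.K6.H47.SG

open Matrix

variable {L : Type} [Field L] {n r : ℕ} {T T' : Type}

/-- The algebra `A` of functions on the nonempty set `T` is a domain, and all maps with coordinates
in `A` from `T` to the cone `X` have their values on one line. -/
structure Good (X : Set (Fin (n + 1) → L)) (A : Subalgebra L (T → L)) : Prop where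
  ne : Nonempty T
  dom : ∀ f ∈ A, ∀ g ∈ A, (∀ t, f t * g t = 0) → (∀ t, f t = 0) ∨ ∀ t, g t = 0
  triv : ∀ φ : T → Fin (n + 1) → L, (∀ i, (fun t => φ t i) ∈ A) → (∀ t, φ t ∈ X) →
    ∃ c : Fin (n + 1) → L, ∀ t, ∃ s : L, φ t = s • c

variable {X : Set (Fin (n + 1) → L)}

/-- functions which belong separately to two algebras -/
def sep (A : Subalgebra L (T → L)) (B : Subalgebra L (T' → L)) : Subalgebra L (T × T' → L) where
  carrier := {f | (∀ t', (fun t => f (t, t')) ∈ A) ∧ ∀ t, (fun t' => f (t, t')) ∈ B}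
  mul_mem' := fun hf hg => ⟨fun t' => A.mul_mem (hf.1 t') (hg.1 t'),
    fun t => B.mul_mem (hf.2 t) (hg.2 t)⟩
  add_mem' := fun hf hg => ⟨fun t' => A.add_mem (hf.1 t') (hg.1 t'),
    fun t => B.add_mem (hf.2 t) (hg.2 t)⟩
  algebraMap_mem' := fun c => ⟨fun _ => A.algebraMap_mem c, fun _ => B.algebraMap_mem c⟩

theorem const_mem (A : Subalgebra L (T → L)) (c : L) : (fun _ => c) ∈ A := A.algebraMap_mem c

theorem fst_mem {A : Subalgebra L (T → L)} (B : Subalgebra L (T' → L)) {f : T → L} (hf : f ∈ A) :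
    (fun p : T × T' => f p.1) ∈ sep A B :=
  ⟨fun _ => hf, fun t => const_mem B (f t)⟩

theorem snd_mem (A : Subalgebra L (T → L)) {B : Subalgebra L (T' → L)} {f : T' → L} (hf : f ∈ B) :
    (fun p : T × T' => f p.2) ∈ sep A B :=
  ⟨fun t => const_mem A (f t), fun _ => hf⟩

theorem Good.exists_ne {A : Subalgebra L (T → L)} (hA : Good X A) {f g : T → L} (hf : f ∈ A)
    (hg : g ∈ A) (h1 : ∃ t, f t ≠ 0) (h2 : ∃ t, g t ≠ 0) : ∃ t, f t ≠ 0 ∧ g t ≠ 0 := by
  by_contra hcon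
  push Not at hcon
  rcases hA.dom f hf g hg (fun t => by
    by_cases h : f t = 0
    · rw [h, zero_mul]
    · rw [hcon t h, mul_zero]) with h | h
  · obtain ⟨t, ht⟩ := h1
    exact ht (h t)
  · obtain ⟨t, ht⟩ := h2
    exact ht (h t)

theorem Good.exists_ne3 {A : Subalgebra L (T → L)} (hA : Good X A) {f g e : T → L} (hf : f ∈ A)
    (hg : g ∈ A) (he : e ∈ A) (h1 : ∃ t, f t ≠ 0) (h2 : ∃ t, g t ≠ 0) (h3 : ∃ t, e t ≠ 0) :
    ∃ t, f t ≠ 0 ∧ g t ≠ 0 ∧ e t ≠ 0 := by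
  obtain ⟨t, ht, ht'⟩ := hA.exists_ne hf hg h1 h2
  obtain ⟨u, hu, hu'⟩ := hA.exists_ne (A.mul_mem hf hg) he ⟨t, mul_ne_zero ht ht'⟩ h3
  exact ⟨u, left_ne_zero_of_mul hu, right_ne_zero_of_mul hu, hu'⟩

/-- products of good families -/
theorem Good.prod {A : Subalgebra L (T → L)} {B : Subalgebra L (T' → L)} (hA : Good X A)
    (hB : Good X B) : Good X (sep A B) where
  ne := by
    obtain ⟨t⟩ := hA.ne
    obtain ⟨t'⟩ := hB.ne
    exact ⟨(t, t')⟩
  dom := by
    intro f hf g hg hfg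
    by_contra hcon
    push Not at hcon
    obtain ⟨⟨⟨a, b⟩, h1⟩, ⟨⟨a', b'⟩, h2⟩⟩ := hcon
    obtain ⟨t, ht1, ht2⟩ := hA.exists_ne (hf.1 b) (hg.1 b') ⟨a, h1⟩ ⟨a', h2⟩
    obtain ⟨t', ht1', ht2'⟩ := hB.exists_ne (hf.2 t) (hg.2 t) ⟨b, ht1⟩ ⟨b', ht2⟩
    exact mul_ne_zero ht1' ht2' (hfg (t, t'))
  triv := by
    intro φ hφ hX
    by_cases hz : ∀ p, φ p = 0
    · exact ⟨0, fun p => ⟨0, by rw [hz p, zero_smul]⟩⟩
    push Not at hz
    obtain ⟨⟨a, b⟩, hab⟩ := hz
    refine ⟨φ (a, b), ?_⟩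
    rintro ⟨a', b'⟩
    -- two vectors on one line
    have key : ∀ (u v c : Fin (n + 1) → L) (s s' : L), u = s • c → v = s' • c → u ≠ 0 →
        ∃ e : L, v = e • u := by
      intro u v c s s' hu hv hu0
      have hs : s ≠ 0 := by
        rintro rfl
        exact hu0 (by rw [hu, zero_smul])
      exact ⟨s' * s⁻¹, by rw [hv, hu, smul_smul, mul_assoc, inv_mul_cancel₀ hs, mul_one]⟩
    by_cases h0 : φ (a', b') = 0
    · exact ⟨0, by rw [h0, zero_smul]⟩
    obtain ⟨i, hi⟩ := Function.ne_iff.1 hab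
    obtain ⟨j, hj⟩ := Function.ne_iff.1 h0
    obtain ⟨b'', hb1, hb2⟩ := hB.exists_ne ((hφ i).2 a) ((hφ j).2 a') ⟨b, hi⟩ ⟨b', hj⟩
    obtain ⟨c1, hc1⟩ := hB.triv (fun t' => φ (a, t')) (fun i => (hφ i).2 a) (fun t' => hX _)
    obtain ⟨c2, hc2⟩ := hB.triv (fun t' => φ (a', t')) (fun i => (hφ i).2 a') (fun t' => hX _)
    obtain ⟨c3, hc3⟩ := hA.triv (fun t => φ (t, b'')) (fun i => (hφ i).1 b'') (fun t => hX _)
    have n1 : φ (a, b'') ≠ 0 := fun h => hb1 (congrFun h i)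
    have n2 : φ (a', b'') ≠ 0 := fun h => hb2 (congrFun h j)
    obtain ⟨s1, e1⟩ := hc1 b
    obtain ⟨s2, e2⟩ := hc1 b''
    obtain ⟨s3, e3⟩ := hc3 a
    obtain ⟨s4, e4⟩ := hc3 a'
    obtain ⟨s5, e5⟩ := hc2 b''
    obtain ⟨s6, e6⟩ := hc2 b'
    obtain ⟨x1, y1⟩ := key _ _ c1 s1 s2 e1 e2 hab
    obtain ⟨x2, y2⟩ := key _ _ c3 s3 s4 e3 e4 n1
    obtain ⟨x3, y3⟩ := key _ _ c2 s5 s6 e5 e6 n2
    refine ⟨x3 * x2 * x1, ?_⟩
    have y1' : φ (a, b'') = x1 • φ (a, b) := y1
    have y2' : φ (a', b'') = x2 • φ (a, b'') := y2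
    have y3' : φ (a', b') = x3 • φ (a', b'') := y3
    rw [y3', y2', y1', smul_smul, smul_smul]

/-- the one-point family -/
theorem good_unit : Good X (⊤ : Subalgebra L (Unit → L)) where
  ne := ⟨()⟩
  dom := by
    intro f _ g _ h
    rcases mul_eq_zero.1 (h ()) with h | h
    · exact Or.inl fun _ => h
    · exact Or.inr fun _ => h
  triv := fun φ _ _ => ⟨φ (), fun _ => ⟨1, by rw [one_smul]⟩⟩

/-! ### Matrices with entries in an algebra -/

/-- families of matrices with entries in the algebra -/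
def Ent {a b : Type} (A : Subalgebra L (T → L)) (z : T → Matrix a b L) : Prop :=
  ∀ i j, (fun t => z t i j) ∈ A

theorem Ent.mul {a b c : Type} [Fintype b] {A : Subalgebra L (T → L)} {z : T → Matrix a b L}
    {w : T → Matrix b c L} (hz : Ent A z) (hw : Ent A w) : Ent A fun t => z t * w t := by
  intro i j
  have : (fun t => (z t * w t) i j) = ∑ k, (fun t => z t i k) * fun t => w t k j := by
    funext t
    rw [mul_apply, Finset.sum_apply]
    rfl
  rw [this]
  exact A.sum_mem fun k _ => A.mul_mem (hz i k) (hw k j)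

theorem Ent.const {a b : Type} (A : Subalgebra L (T → L)) (z : Matrix a b L) :
    Ent A fun _ => z := fun i j => const_mem A (z i j)

theorem Ent.det {a : Type} [Fintype a] [DecidableEq a] {A : Subalgebra L (T → L)}
    {z : T → Matrix a a L} (hz : Ent A z) : (fun t => (z t).det) ∈ A := by
  have : (fun t => (z t).det) = ∑ σ : Equiv.Perm a, (fun _ => ((Equiv.Perm.sign σ : ℤ) : L)) *
      ∏ i, fun t => z t (σ i) i := by
    funext t
    rw [det_apply', Finset.sum_apply]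
    refine Finset.sum_congr rfl fun σ _ => ?_
    rw [Pi.mul_apply, Finset.prod_apply]
  rw [this]
  exact A.sum_mem fun σ _ => A.mul_mem (const_mem A _) (A.prod_mem fun i _ => hz _ _)

/-- the polynomial functions on the matrices -/
def PF (r : ℕ) (L : Type) [Field L] : Subalgebra L (Mt r L → L) :=
  Algebra.adjoin L (Set.range fun (p : Fin r × Fin r) (z : Mt r L) => z p.1 p.2)

theorem ent_id : Ent (PF r L) fun z : Mt r L => z := fun i j =>
  Algebra.subset_adjoin ⟨(i, j), rfl⟩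

theorem pf_comp {A : Subalgebra L (T → L)} {m : T → Mt r L} (hm : Ent A m) {f : Mt r L → L}
    (hf : f ∈ PF r L) : (fun t => f (m t)) ∈ A := by
  induction hf using Algebra.adjoin_induction with
  | mem x hx =>
    obtain ⟨p, rfl⟩ := hx
    exact hm p.1 p.2
  | algebraMap c => exact A.algebraMap_mem c
  | add x y _ _ hx hy => exact A.add_mem hx hy
  | mul x y _ _ hx hy => exact A.mul_mem hx hy

/-! ### Good sets of matrices -/

/-- images of good families -/
def GoodSet (X : Set (Fin (n + 1) → L)) (Y : Set (Mt r L)) : Prop :=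
  ∃ (T : Type) (A : Subalgebra L (T → L)) (m : T → Mt r L), Good X A ∧ Ent A m ∧ Set.range m = Y

theorem GoodSet.nonempty {Y : Set (Mt r L)} (h : GoodSet X Y) : Y.Nonempty := by
  obtain ⟨T, A, m, hA, -, rfl⟩ := h
  obtain ⟨t⟩ := hA.ne
  exact ⟨m t, t, rfl⟩

theorem goodSet_singleton (z : Mt r L) : GoodSet X {z} :=
  ⟨Unit, ⊤, fun _ => z, good_unit, fun _ _ => Algebra.mem_top, Set.range_const⟩

theorem GoodSet.mul {Y Y' : Set (Mt r L)} (h : GoodSet X Y) (h' : GoodSet X Y') :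
    GoodSet X {z | ∃ y ∈ Y, ∃ y' ∈ Y', z = y * y'} := by
  obtain ⟨T, A, m, hA, hm, rfl⟩ := h
  obtain ⟨T', A', m', hA', hm', rfl⟩ := h'
  refine ⟨T × T', sep A A', fun p => m p.1 * m' p.2, hA.prod hA', ?_, ?_⟩
  · exact Ent.mul (fun i j => fst_mem A' (hm i j)) (fun i j => snd_mem A (hm' i j))
  · ext z
    constructor
    · rintro ⟨p, rfl⟩
      exact ⟨_, ⟨p.1, rfl⟩, _, ⟨p.2, rfl⟩, rfl⟩
    · rintro ⟨_, ⟨t, rfl⟩, _, ⟨t', rfl⟩, rfl⟩
      exact ⟨(t, t'), rfl⟩

/-! ### Zariski closure -/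

/-- the Zariski closure -/
def cl (S : Set (Mt r L)) : Set (Mt r L) :=
  {z | ∀ f ∈ PF r L, (∀ s ∈ S, f s = 0) → f z = 0}

theorem subset_cl (S : Set (Mt r L)) : S ⊆ cl S := fun z hz _ _ hf => hf z hz

theorem cl_mono {S S' : Set (Mt r L)} (h : S ⊆ S') : cl S ⊆ cl S' :=
  fun _ hz f hf hS => hz f hf fun s hs => hS s (h hs)

theorem cl_cl (S : Set (Mt r L)) : cl (cl S) ⊆ cl S :=
  fun _ hz f hf hS => hz f hf fun _ hs => hs f hf hS

theorem cl_le {S S' : Set (Mt r L)} (h : S ⊆ cl S') : cl S ⊆ cl S' :=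
  (cl_mono h).trans (cl_cl S')

theorem cl_mul {S S' : Set (Mt r L)} {U : Set (Mt r L)} (h : ∀ s ∈ S, ∀ s' ∈ S', s * s' ∈ cl U)
    {z z' : Mt r L} (hz : z ∈ cl S) (hz' : z' ∈ cl S') : z * z' ∈ cl U := by
  intro f hf hU
  have h1 : ∀ s ∈ S, f (s * z') = 0 := fun s hs =>
    hz' (fun w => f (s * w)) (pf_comp (Ent.mul (Ent.const _ s) ent_id) hf)
      fun s' hs' => h s hs s' hs' f hf hU
  exact hz (fun w => f (w * z')) (pf_comp (Ent.mul ent_id (Ent.const _ z')) hf) h1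

/-- If the elements of a good family outside of a proper closed subset lie in finitely many sets,
the family is in the closure of one of them. -/
theorem Good.subset_of_generic {A : Subalgebra L (T → L)} (hA : Good X A) {m : T → Mt r L}
    (hm : Ent A m) {ι : Type} (I : Finset ι) (F : ι → Set (Mt r L)) {g : T → L} (hg : g ∈ A)
    (h0 : ∃ t, g t ≠ 0) (h : ∀ t, g t ≠ 0 → ∃ i ∈ I, m t ∈ cl (F i)) :
    ∃ i ∈ I, ∀ t, m t ∈ cl (F i) := by
  classical
  induction I using Finset.induction_on generalizing g with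
  | empty =>
    obtain ⟨t, ht⟩ := h0
    obtain ⟨i, hi, -⟩ := h t ht
    exact absurd hi (Finset.notMem_empty i)
  | insert j J hj ih =>
    by_cases hj' : ∀ t, m t ∈ cl (F j)
    · exact ⟨j, Finset.mem_insert_self j J, hj'⟩
    · push Not at hj'
      obtain ⟨t0, ht0⟩ := hj'
      have h1 : ∃ f ∈ PF r L, (∀ s ∈ F j, f s = 0) ∧ f (m t0) ≠ 0 := by
        by_contra hcon
        push Not at hcon
        exact ht0 fun f hf hs => hcon f hf hs
      obtain ⟨f, hf, hs, hne⟩ := h1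
      have hfm := pf_comp hm hf
      obtain ⟨t1, ht1, ht1'⟩ := hA.exists_ne hg hfm h0 ⟨t0, hne⟩
      obtain ⟨i, hi, hi'⟩ := ih (g := fun t => g t * f (m t)) (A.mul_mem hg hfm)
        ⟨t1, mul_ne_zero ht1 ht1'⟩ (by
          intro t ht
          obtain ⟨i, hi, hmem⟩ := h t (left_ne_zero_of_mul ht)
          rcases Finset.mem_insert.1 hi with rfl | hi
          · exact absurd (hmem f hf hs) (right_ne_zero_of_mul ht)
          · exact ⟨i, hi, hmem⟩)
      exact ⟨i, Finset.mem_insert_of_mem hi, hi'⟩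

/-- the closure of a finite union -/
theorem cl_iUnion {ι : Type} (I : Finset ι) (F : ι → Set (Mt r L)) {z : Mt r L}
    (hz : z ∈ cl {w | ∃ i ∈ I, w ∈ F i}) : ∃ i ∈ I, z ∈ cl (F i) := by
  classical
  by_contra hcon
  push Not at hcon
  have h1 : ∀ i ∈ I, ∃ f ∈ PF r L, (∀ s ∈ F i, f s = 0) ∧ f z ≠ 0 := by
    intro i hi
    by_contra hc
    push Not at hc
    exact hcon i hi fun f hf hs => hc f hf hs
  choose! f hf hs hne using h1
  have h2 : (fun w => ∏ i ∈ I, f i w) ∈ PF r L := by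
    have : (fun w => ∏ i ∈ I, f i w) = ∏ i ∈ I, f i := by
      funext w
      rw [Finset.prod_apply]
    rw [this]
    exact (PF r L).prod_mem hf
  have h3 := hz _ h2 (by
    rintro w ⟨i, hi, hw⟩
    exact Finset.prod_eq_zero hi (hs i hi w hw))
  exact Finset.prod_ne_zero_iff.2 hne h3

end Pool.Agent.K6.H47.SG
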