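import Pool.Agent.K6.H47.SG.Irr
import Pool.Agent.TH717.GO.UE
import Pool.Agent.TH717.GO.Hyb

set_option autoImplicit false

/-! # Irreducible groups are good families -/

namespace Pool.Agent.K6.H47.SG

open Matrix Pool.Agent.TH717.GO

variable {K : Type} [Field K] {H : Type} [Group H] {d : ℕ}

/-- the cone over the variety -/
def cone {k : Type} [Field k] {n : ℕ} (FF : Set (MvPolynomial (Fin (n + 1)) k)) (K : Type)
    [Field K] [Algebra k K] : Set (Fin (n + 1) → K) :=
  {x | ∀ F ∈ FF, MvPolynomial.aeval x F = 0}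

/-- Polynomial maps from groups of matrices to the variety have finitely many values. -/
theorem fin_lines {k : Type} [Field k] [CharZero k] {n : ℕ}
    (FF : Set (MvPolynomial (Fin (n + 1)) k)) (hhom : ∀ F ∈ FF, ∃ e, F.IsHomogeneous e)
    (hno : ∀ R, CurCond FF (1 : MvPolynomial (Fin (n + 1)) k) R) [Algebra k K] {D : ℕ}
    (hD : SpecDeg K D) (ρ : H →* GL (Fin d) K) (φ : H → Fin (n + 1) → K)
    (hφ : ∀ i, (fun h => φ h i) ∈ pol ρ) (hX : ∀ h, φ h ∈ cone FF K) :
    ∃ C : Finset (Fin (n + 1) → K), ∀ h, ∃ c ∈ C, ∃ s : K, φ h = s • c := by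
  classical
  obtain ⟨D', R, M, v, hR⟩ := exists_rep ρ φ hφ
  have hb := uni_core FF hhom 1 ⟨0, MvPolynomial.isHomogeneous_one _ _⟩ (hno (D' * D')) hD R M v
    (fun h F hF => by
      have := hX h F hF
      rwa [hR h] at this)
  have hfin : (orbitOff (1 : MvPolynomial (Fin (n + 1)) k) M R v).Finite :=
    Set.finite_of_encard_le_coe hb
  refine ⟨insert 0 (hfin.toFinset.image Projectivization.rep), fun h => ?_⟩
  by_cases h0 : φ h = 0
  · exact ⟨0, Finset.mem_insert_self _ _, 0, by rw [h0, zero_smul]⟩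
  · have h1 : orb M R v h ≠ 0 := by
      intro h1
      apply h0
      rw [hR h]
      exact h1
    have hmem : Projectivization.mk K (orb M R v h) h1 ∈
        orbitOff (1 : MvPolynomial (Fin (n + 1)) k) M R v :=
      ⟨h, h1, by rw [map_one]; exact one_ne_zero, rfl⟩
    obtain ⟨a, ha⟩ := Projectivization.exists_smul_eq_mk_rep K (orb M R v h) h1
    refine ⟨_, Finset.mem_insert_of_mem (Finset.mem_image_of_mem _ (hfin.mem_toFinset.2 hmem)),
      ((a⁻¹ : Kˣ) : K), ?_⟩
    rw [← ha, hR h]
    change orb M R v h = ((a⁻¹ : Kˣ) : K) • ((a : K) • orb M R v h)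
    rw [smul_smul, ← Units.val_mul, inv_mul_cancel, Units.val_one, one_smul]

/-- A finite set of lines which contains the values of an irreducible family contains them in one
line. -/
theorem one_line {T : Type} {n : ℕ} (A : Subalgebra K (T → K)) (hne : Nonempty T)
    (hdom : ∀ f ∈ A, ∀ g ∈ A, (∀ t, f t * g t = 0) → (∀ t, f t = 0) ∨ ∀ t, g t = 0)
    (φ : T → Fin n → K) (hφ : ∀ i, (fun t => φ t i) ∈ A) (C : Finset (Fin n → K))
    (hC : ∀ t, ∃ c ∈ C, ∃ s : K, φ t = s • c) : ∃ c, ∀ t, ∃ s : K, φ t = s • c := by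
  classical
  by_contra hcon
  push Not at hcon
  have h1 : ∀ c : Fin n → K, ∃ f ∈ A, (∀ t, (∃ s : K, φ t = s • c) → f t = 0) ∧ ∃ t, f t ≠ 0 := by
    intro c
    obtain ⟨t, ht⟩ := hcon c
    by_cases hc : c = 0
    · have h2 : φ t ≠ 0 := fun h => ht 0 (by rw [h, zero_smul])
      obtain ⟨i, hi⟩ := Function.ne_iff.1 h2
      refine ⟨_, hφ i, ?_, t, hi⟩
      rintro u ⟨s, hs⟩
      rw [hs, hc, smul_zero]
      rfl
    · obtain ⟨j, hj⟩ := Function.ne_iff.1 hc
      have hj' : c j ≠ 0 := hj
      have h2 : ∃ i, φ t i * c j - φ t j * c i ≠ 0 := by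
        by_contra h3
        push Not at h3
        apply ht (φ t j / c j)
        funext i
        rw [Pi.smul_apply, smul_eq_mul, div_mul_eq_mul_div, eq_div_iff hj']
        exact sub_eq_zero.1 (h3 i)
      obtain ⟨i, hi⟩ := h2
      refine ⟨fun t => φ t i * c j - φ t j * c i, A.sub_mem (A.mul_mem (hφ i) (const_mem A _))
        (A.mul_mem (hφ j) (const_mem A _)), ?_, t, hi⟩
      rintro u ⟨s, hs⟩
      change φ u i * c j - φ u j * c i = 0
      rw [hs]
      simp only [Pi.smul_apply, smul_eq_mul]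
      ring
  choose f hf hf0 hfne using h1
  have h2 : ∀ S : Finset (Fin n → K), ∃ t, ∏ c ∈ S, f c t ≠ 0 := by
    intro S
    induction S using Finset.induction_on with
    | empty =>
      obtain ⟨t⟩ := hne
      exact ⟨t, by rw [Finset.prod_empty]; exact one_ne_zero⟩
    | insert c S hc ih =>
      by_contra h3
      push Not at h3
      have hmem : (fun t => ∏ c ∈ S, f c t) ∈ A := by
        have : (fun t => ∏ c ∈ S, f c t) = ∏ c ∈ S, f c := by
          funext t
          rw [Finset.prod_apply]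
        rw [this]
        exact A.prod_mem fun c _ => hf c
      rcases hdom _ (hf c) _ hmem (fun t => by
        have := h3 t
        rwa [Finset.prod_insert hc] at this) with h4 | h4
      · obtain ⟨t, ht⟩ := hfne c
        exact ht (h4 t)
      · obtain ⟨t, ht⟩ := ih
        exact ht (h4 t)
  obtain ⟨t, ht⟩ := h2 C
  obtain ⟨c, hc, hs⟩ := hC t
  exact ht (Finset.prod_eq_zero hc (hf0 c t hs))

/-- data of a variety without rational curves and a field over which groups of matrices give
finitely many points -/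
structure Setup (k : Type) [Field k] (n : ℕ) (FF : Set (MvPolynomial (Fin (n + 1)) k)) (K : Type)
    [Field K] [Algebra k K] : Prop where
  czero : CharZero k
  hom : ∀ F ∈ FF, ∃ e, F.IsHomogeneous e
  cur : ∀ R, CurCond FF (1 : MvPolynomial (Fin (n + 1)) k) R
  spec : ∃ D, SpecDeg K D

theorem Setup.good {k : Type} [Field k] {n : ℕ} {FF : Set (MvPolynomial (Fin (n + 1)) k)}
    [Algebra k K] (hs : Setup k n FF K) (ρ : H →* GL (Fin d) K) (hρ : Irr ρ) :
    Good (cone FF K) (pol ρ) where
  ne := ⟨1⟩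
  dom := hρ
  triv := by
    intro φ hφ hX
    have := hs.czero
    obtain ⟨D, hD⟩ := hs.spec
    obtain ⟨C, hC⟩ := fin_lines FF hs.hom hs.cur hD ρ φ hφ hX
    exact one_line _ ⟨1⟩ hρ φ hφ C hC

end Pool.Agent.K6.H47.SG
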