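import Pool.Agent.K6.H47.SG.Fam

set_option autoImplicit false

/-! # Groups of matrices: irreducible subgroups of finite index, dense semigroups -/

namespace Pool.Agent.K6.H47.SG

open Matrix

variable {K : Type} [Field K] {H : Type} [Group H] {d : ℕ}

/-- polynomial functions of the entries of the matrices of a representation -/
def pol (ρ : H →* GL (Fin d) K) : Subalgebra K (H → K) :=
  Algebra.adjoin K (Set.range fun (p : Fin d × Fin d) (h : H) => (ρ h : Mt d K) p.1 p.2)

theorem pol_ent (ρ : H →* GL (Fin d) K) : Ent (pol ρ) fun h => (ρ h : Mt d K) := fun i j =>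
  Algebra.subset_adjoin ⟨(i, j), rfl⟩

/-- polynomial functions are given by polynomials -/
theorem pol_poly (ρ : H →* GL (Fin d) K) {f : H → K} (hf : f ∈ pol ρ) :
    ∃ P : MvPolynomial (Fin d × Fin d) K,
      ∀ h, f h = MvPolynomial.aeval (fun p : Fin d × Fin d => (ρ h : Mt d K) p.1 p.2) P := by
  unfold pol at hf
  induction hf using Algebra.adjoin_induction with
  | mem x hx =>
    obtain ⟨p, rfl⟩ := hx
    exact ⟨MvPolynomial.X p, fun h => by rw [MvPolynomial.aeval_X]⟩
  | algebraMap c =>
    refine ⟨MvPolynomial.C c, fun h => ?_⟩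
    rw [MvPolynomial.algHom_C]
    rfl
  | add x y _ _ hx hy =>
    obtain ⟨P, hP⟩ := hx
    obtain ⟨Q, hQ⟩ := hy
    exact ⟨P + Q, fun h => by rw [map_add, ← hP, ← hQ]; rfl⟩
  | mul x y _ _ hx hy =>
    obtain ⟨P, hP⟩ := hx
    obtain ⟨Q, hQ⟩ := hy
    exact ⟨P * Q, fun h => by rw [map_mul, ← hP, ← hQ]; rfl⟩

theorem poly_pol (ρ : H →* GL (Fin d) K) (P : MvPolynomial (Fin d × Fin d) K) :
    (fun h => MvPolynomial.aeval (fun p : Fin d × Fin d => (ρ h : Mt d K) p.1 p.2) P) ∈ pol ρ := by
  induction P using MvPolynomial.induction_on with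
  | C a =>
    simp only [MvPolynomial.algHom_C]
    exact (pol ρ).algebraMap_mem a
  | add p q hp hq =>
    simp only [map_add]
    exact (pol ρ).add_mem hp hq
  | mul_X p n hp =>
    simp only [map_mul, MvPolynomial.aeval_X]
    exact (pol ρ).mul_mem hp (pol_ent ρ n.1 n.2)

/-- the polynomial functions are a domain -/
def Irr (ρ : H →* GL (Fin d) K) : Prop :=
  ∀ f ∈ pol ρ, ∀ g ∈ pol ρ, (∀ h, f h * g h = 0) → (∀ h, f h = 0) ∨ ∀ h, g h = 0

/-! ### Translations -/

/-- left translation of functions -/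
def lam (g : H) : (H → K) →ₐ[K] (H → K) where
  toFun f := fun x => f (g * x)
  map_one' := rfl
  map_mul' _ _ := rfl
  map_zero' := rfl
  map_add' _ _ := rfl
  commutes' _ := rfl

theorem lam_apply (g : H) (f : H → K) (x : H) : lam g f x = f (g * x) := rfl

theorem exists_stable (ρ : H →* GL (Fin d) K) {f : H → K} (hf : f ∈ pol ρ) :
    ∃ W : Submodule K (H → K), W.FG ∧ f ∈ W ∧ ∀ g : H, W.map (lam g).toLinearMap ≤ W := by
  unfold pol at hf
  induction hf using Algebra.adjoin_induction with
  | mem x hx =>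
    obtain ⟨⟨i, j⟩, rfl⟩ := hx
    refine ⟨Submodule.span K (Set.range fun (k : Fin d) (h : H) => (ρ h : Mt d K) k j), ?_,
      Submodule.subset_span ⟨i, rfl⟩, fun g => ?_⟩
    · exact Submodule.fg_span (Set.finite_range _)
    · rw [Submodule.map_span, Submodule.span_le]
      rintro _ ⟨_, ⟨k, rfl⟩, rfl⟩
      have : (lam g).toLinearMap (fun h => (ρ h : Mt d K) k j) =
          ∑ l, (ρ g : Mt d K) k l • fun h => (ρ h : Mt d K) l j := by
        funext x
        rw [Finset.sum_apply]
        change (ρ (g * x) : Mt d K) k j = _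
        rw [map_mul, GeneralLinearGroup.coe_mul, mul_apply]
        rfl
      rw [this]
      exact Submodule.sum_mem _ fun l _ => Submodule.smul_mem _ _ (Submodule.subset_span ⟨l, rfl⟩)
  | algebraMap c =>
    refine ⟨Submodule.span K {1}, Submodule.fg_span (Set.finite_singleton _), ?_, fun g => ?_⟩
    · rw [Algebra.algebraMap_eq_smul_one]
      exact Submodule.smul_mem _ _ (Submodule.subset_span rfl)
    · rw [Submodule.map_span, Set.image_singleton]
      exact le_of_eq rfl
  | add x y _ _ hx hy =>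
    obtain ⟨W, h1, h2, h3⟩ := hx
    obtain ⟨W', h1', h2', h3'⟩ := hy
    refine ⟨W ⊔ W', h1.sup h1', Submodule.add_mem_sup h2 h2', fun g => ?_⟩
    rw [Submodule.map_sup]
    exact sup_le_sup (h3 g) (h3' g)
  | mul x y _ _ hx hy =>
    obtain ⟨W, h1, h2, h3⟩ := hx
    obtain ⟨W', h1', h2', h3'⟩ := hy
    refine ⟨W * W', h1.mul h1', Submodule.mul_mem_mul h2 h2', fun g => ?_⟩
    rw [Submodule.map_mul]
    exact mul_le_mul' (h3 g) (h3' g)

/-- polynomial maps are orbits of other representations -/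
theorem exists_rep (ρ : H →* GL (Fin d) K) {m : ℕ} (φ : H → Fin m → K)
    (hφ : ∀ i, (fun h => φ h i) ∈ pol ρ) :
    ∃ (D : ℕ) (R : H →* GL (Fin D) K) (M : Matrix (Fin m) (Fin D) K) (v : Fin D → K),
      ∀ h, φ h = M.mulVec ((R h : Mt D K).mulVec v) := by
  classical
  choose W0 hfg hmem hst using fun i => exists_stable ρ (hφ i)
  let W : Submodule K (H → K) := ⨆ i, W0 i
  have hW : W.FG := Submodule.fg_iSup _ hfg
  have hWm : ∀ i, (fun h => φ h i) ∈ W := fun i => Submodule.mem_iSup_of_mem i (hmem i)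
  have hWs : ∀ g : H, W.map (lam g).toLinearMap ≤ W := by
    intro g
    rw [Submodule.map_iSup]
    exact iSup_mono fun i => hst i g
  have hfin : Module.Finite K W := Module.Finite.iff_fg.2 hW
  let b := Module.finBasis K W
  let Λ : H → (W →ₗ[K] W) := fun g => (lam g).toLinearMap.restrict fun x hx =>
    hWs g (Submodule.mem_map_of_mem hx)
  have hΛ : ∀ g (w : W) (x : H), ((Λ g w : W) : H → K) x = (w : H → K) (g * x) := fun _ _ _ => rfl
  have hΛ1 : Λ 1 = LinearMap.id := by
    ext w x
    rw [hΛ, one_mul]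
    rfl
  have hΛm : ∀ g h, Λ (g * h) = (Λ h) ∘ₗ (Λ g) := by
    intro g h
    ext w x
    rw [LinearMap.comp_apply, hΛ, hΛ, hΛ, mul_assoc]
  let R0 : H →* Mt (Module.finrank K W) K :=
    { toFun := fun g => (LinearMap.toMatrix b b (Λ g))ᵀ
      map_one' := by rw [hΛ1, LinearMap.toMatrix_id, transpose_one]
      map_mul' := fun g h => by
        rw [hΛm, LinearMap.toMatrix_comp b b b, transpose_mul] }
  refine ⟨Module.finrank K W, R0.toHomUnits, Matrix.of fun i j => b.repr ⟨_, hWm i⟩ j,
    fun k => (b k : H → K) 1, fun g => ?_⟩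
  have e1 : ∀ j, ((R0.toHomUnits g : Mt (Module.finrank K W) K).mulVec
      (fun k => (b k : H → K) 1)) j = (b j : H → K) g := by
    intro j
    have h1 : (R0.toHomUnits g : Mt (Module.finrank K W) K) = (LinearMap.toMatrix b b (Λ g))ᵀ := rfl
    rw [h1, mulVec, dotProduct]
    have h2 := b.sum_repr (Λ g (b j))
    have h3 := congrArg (fun w : W => (w : H → K) 1) h2
    simp only [hΛ, mul_one] at h3
    rw [← h3, Submodule.coe_sum, Finset.sum_apply]
    refine Finset.sum_congr rfl fun k _ => ?_
    rw [transpose_apply, LinearMap.toMatrix_apply]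
    rfl
  funext i
  rw [mulVec, dotProduct]
  have h2 := b.sum_repr ⟨_, hWm i⟩
  have h3 := congrArg (fun w : W => (w : H → K) g) h2
  change _ = φ g i at h3
  rw [← h3, Submodule.coe_sum, Finset.sum_apply]
  refine Finset.sum_congr rfl fun j _ => ?_
  rw [e1]
  rfl

/-! ### Dense semigroups -/

/-- A polynomial function which vanishes on a semigroup vanishes on the group it generates. -/
theorem dense_semigroup (ρ : H →* GL (Fin d) K) (S : Set H) (hne : S.Nonempty)
    (hmul : ∀ a ∈ S, ∀ b ∈ S, a * b ∈ S) (hgen : Subgroup.closure S = ⊤) {f : H → K}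
    (hf : f ∈ pol ρ) (h0 : ∀ a ∈ S, f a = 0) (h : H) : f h = 0 := by
  classical
  obtain ⟨W, hfg, hfW, hst⟩ := exists_stable ρ hf
  have hfin : Module.Finite K W := Module.Finite.iff_fg.2 hfg
  let W0 : Submodule K (H → K) :=
    { carrier := {w | w ∈ W ∧ ∀ a ∈ S, w a = 0}
      add_mem' := fun {x y} hx hy => ⟨W.add_mem hx.1 hy.1, fun a ha => by
        rw [Pi.add_apply, hx.2 a ha, hy.2 a ha, add_zero]⟩
      zero_mem' := ⟨W.zero_mem, fun _ _ => rfl⟩
      smul_mem' := fun c x hx => ⟨W.smul_mem c hx.1, fun a ha => by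
        rw [Pi.smul_apply, hx.2 a ha, smul_zero]⟩ }
  have hle : W0 ≤ W := fun _ hx => hx.1
  have hfin0 : FiniteDimensional K W0 := Submodule.finiteDimensional_of_le hle
  have hinj : ∀ g : H, Function.Injective (lam (K := K) g) := by
    intro g x y hxy
    funext z
    have := congrFun hxy (g⁻¹ * z)
    rwa [lam_apply, lam_apply, mul_inv_cancel_left] at this
  have hcomp : ∀ a b : H, ∀ V : Submodule K (H → K), (V.map (lam a).toLinearMap).map
      (lam b).toLinearMap = V.map (lam (a * b)).toLinearMap := by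
    intro a b V
    rw [← Submodule.map_comp]
    congr 1
    ext x z
    change (lam b (lam a x)) z = lam (a * b) x z
    rw [lam_apply, lam_apply, lam_apply, mul_assoc]
  have hone : ∀ V : Submodule K (H → K), V.map (lam (1 : H)).toLinearMap = V := by
    intro V
    have : (lam (1 : H)).toLinearMap = (LinearMap.id : (H → K) →ₗ[K] (H → K)) := by
      ext x z
      change lam 1 x z = x z
      rw [lam_apply, one_mul]
    rw [this, Submodule.map_id]
  let G : Subgroup H :=
    { carrier := {g | W0.map (lam g).toLinearMap = W0}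
      mul_mem' := fun {a b} ha hb => by
        change W0.map (lam (a * b)).toLinearMap = W0
        rw [← hcomp]
        rw [show W0.map (lam a).toLinearMap = W0 from ha]
        exact hb
      one_mem' := hone W0
      inv_mem' := fun {a} ha => by
        change W0.map (lam a⁻¹).toLinearMap = W0
        have h1 : W0.map (lam a).toLinearMap = W0 := ha
        calc W0.map (lam a⁻¹).toLinearMap
            = (W0.map (lam a).toLinearMap).map (lam a⁻¹).toLinearMap := by rw [h1]
          _ = W0 := by rw [hcomp, mul_inv_cancel, hone] }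
  have hSG : Subgroup.closure S ≤ G := by
    rw [Subgroup.closure_le]
    intro a ha
    change W0.map (lam a).toLinearMap = W0
    refine Submodule.eq_of_le_of_finrank_eq ?_ ?_
    · rintro _ ⟨w, hw, rfl⟩
      exact ⟨hst a (Submodule.mem_map_of_mem hw.1), fun b hb => hw.2 _ (hmul a ha b hb)⟩
    · exact (Submodule.equivMapOfInjective _ (hinj a) W0).symm.finrank_eq
  obtain ⟨a, ha⟩ := hne
  have hG : h * a⁻¹ ∈ G := by
    apply hSG
    rw [hgen]
    trivial
  have h1 : W0.map (lam (h * a⁻¹)).toLinearMap = W0 := hG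
  have h2 : lam (h * a⁻¹) f ∈ W0 := by
    rw [← h1]
    exact Submodule.mem_map_of_mem (f := (lam (h * a⁻¹)).toLinearMap) ⟨hfW, h0⟩
  have h3 := h2.2 a ha
  rwa [lam_apply, inv_mul_cancel_right] at h3

/-! ### The identity component -/

/-- the point of affine space given by the matrix -/
def pt (ρ : H →* GL (Fin d) K) (h : H) : Fin d × Fin d → K := fun p => (ρ h : Mt d K) p.1 p.2

/-- the Zariski topology of a group of matrices -/
@[instance_reducible]
noncomputable def zar (ρ : H →* GL (Fin d) K) : TopologicalSpace H :=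
  TopologicalSpace.induced (fun h => (MvPolynomial.pointToPoint (pt ρ h) :
    PrimeSpectrum (MvPolynomial (Fin d × Fin d) K))) inferInstance

theorem zar_isClosed (ρ : H →* GL (Fin d) K) (C : Set H) :
    @IsClosed H (zar ρ) C ↔ ∃ s : Set (MvPolynomial (Fin d × Fin d) K),
      C = {h | ∀ P ∈ s, MvPolynomial.aeval (pt ρ h) P = 0} := by
  have key : ∀ s : Set (MvPolynomial (Fin d × Fin d) K),
      (fun h => (MvPolynomial.pointToPoint (pt ρ h) :
        PrimeSpectrum (MvPolynomial (Fin d × Fin d) K))) ⁻¹' (PrimeSpectrum.zeroLocus s) =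
      {h | ∀ P ∈ s, MvPolynomial.aeval (pt ρ h) P = 0} := by
    intro s
    ext h
    rw [Set.mem_preimage, PrimeSpectrum.mem_zeroLocus]
    constructor
    · intro h1 P hP
      have h2 := h1 hP
      exact MvPolynomial.mem_vanishingIdeal_singleton_iff _ _ |>.1 h2
    · intro h1 P hP
      exact MvPolynomial.mem_vanishingIdeal_singleton_iff _ _ |>.2 (h1 P hP)
  unfold zar
  rw [isClosed_induced_iff]
  constructor
  · rintro ⟨t, ht, rfl⟩
    obtain ⟨s, rfl⟩ := (PrimeSpectrum.isClosed_iff_zeroLocus _).1 ht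
    exact ⟨s, key s⟩
  · rintro ⟨s, rfl⟩
    exact ⟨_, PrimeSpectrum.isClosed_zeroLocus s, key s⟩

theorem zar_noeth (ρ : H →* GL (Fin d) K) : @TopologicalSpace.NoetherianSpace H (zar ρ) := by
  let _ : TopologicalSpace H := zar ρ
  exact Topology.IsInducing.noetherianSpace (i := fun h => (MvPolynomial.pointToPoint (pt ρ h) :
    PrimeSpectrum (MvPolynomial (Fin d × Fin d) K))) ⟨rfl⟩

theorem zar_cont (ρ : H →* GL (Fin d) K) (g : H) :
    @Continuous H H (zar ρ) (zar ρ) fun x => g * x := by
  let _ : TopologicalSpace H := zar ρ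
  rw [continuous_iff_isClosed]
  intro C hC
  obtain ⟨s, rfl⟩ := (zar_isClosed ρ C).1 hC
  rw [zar_isClosed]
  let τ : MvPolynomial (Fin d × Fin d) K →ₐ[K] MvPolynomial (Fin d × Fin d) K :=
    MvPolynomial.aeval fun p => ∑ k, MvPolynomial.C ((ρ g : Mt d K) p.1 k) * MvPolynomial.X (k, p.2)
  refine ⟨τ '' s, ?_⟩
  have key : ∀ P x, MvPolynomial.aeval (pt ρ x) (τ P) = MvPolynomial.aeval (pt ρ (g * x)) P := by
    intro P x
    have : (MvPolynomial.aeval (pt ρ x)).comp τ = MvPolynomial.aeval (pt ρ (g * x)) := by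
      apply MvPolynomial.algHom_ext
      intro p
      rw [AlgHom.comp_apply, MvPolynomial.aeval_X, MvPolynomial.aeval_X, map_sum]
      unfold pt
      rw [map_mul, GeneralLinearGroup.coe_mul, mul_apply]
      refine Finset.sum_congr rfl fun k _ => ?_
      rw [map_mul, MvPolynomial.algHom_C, MvPolynomial.aeval_X]
      rfl
    rw [← this]
    rfl
  ext x
  simp only [Set.mem_preimage, Set.mem_ofPred_eq, Set.forall_mem_image, key]

/-- the translations as homeomorphisms -/
noncomputable def zarHomeo (ρ : H →* GL (Fin d) K) (g : H) : @Homeomorph H H (zar ρ) (zar ρ) :=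
  @Homeomorph.mk H H (zar ρ) (zar ρ) (Equiv.mulLeft g) (zar_cont ρ g) (zar_cont ρ g⁻¹)

/-- An irreducible subgroup of finite index. -/
theorem exists_irr (ρ : H →* GL (Fin d) K) : ∃ (N : Subgroup H) (I : Finset H),
    Irr (ρ.comp N.subtype) ∧ ∀ h : H, ∃ g ∈ I, g⁻¹ * h ∈ N := by
  classical
  let _ : TopologicalSpace H := zar ρ
  have _ : TopologicalSpace.NoetherianSpace H := zar_noeth ρ
  have hfin := TopologicalSpace.NoetherianSpace.finite_irreducibleComponents (α := H)
  have hmove : ∀ (g : H) (C : Set H), C ∈ irreducibleComponents H →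
      (fun x => g * x) ⁻¹' C ∈ irreducibleComponents H := by
    intro g C hC
    refine preimage_mem_irreducibleComponents hC (f := zarHomeo ρ g)
      (zarHomeo ρ g).isOpenEmbedding ?_
    rw [(zarHomeo ρ g).surjective.range_eq, Set.inter_univ]
    exact hC.1.1
  -- the component of `1` is unique
  have huniq : ∀ C ∈ irreducibleComponents H, ∀ D ∈ irreducibleComponents H, (1 : H) ∈ C →
      (1 : H) ∈ D → C = D := by
    intro C hC D hD h1C h1D
    -- a point of `C` in no other component
    obtain ⟨h, hhC, hh⟩ : ∃ h ∈ C, ∀ E ∈ irreducibleComponents H, h ∈ E → E = C := by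
      by_contra hcon
      push Not at hcon
      have := mem_of_subset_sUnion_irreducibleComponents C hC (irreducibleComponents H \ {C})
        hfin.sdiff Set.sdiff_subset (fun h hh => by
          obtain ⟨E, hE, hhE, hne⟩ := hcon h hh
          exact ⟨E, ⟨hE, hne⟩, hhE⟩)
      exact this.2 rfl
    have e1 := hh _ (hmove h⁻¹ C hC) (by
      change h⁻¹ * h ∈ C
      rwa [inv_mul_cancel])
    have e2 := hh _ (hmove h⁻¹ D hD) (by
      change h⁻¹ * h ∈ D
      rwa [inv_mul_cancel])
    have e3 := e1.trans e2.symm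
    have e4 := congrArg (fun E => (fun x => h * x) ⁻¹' E) e3
    simpa [Set.preimage_preimage] using e4
  set C := irreducibleComponent (1 : H) with hCdef
  have hC : C ∈ irreducibleComponents H := irreducibleComponent_mem_irreducibleComponents 1
  have h1C : (1 : H) ∈ C := mem_irreducibleComponent
  have hCC : ∀ a ∈ C, (fun x => a * x) ⁻¹' C = C := by
    intro a ha
    refine huniq _ (hmove a C hC) _ hC ?_ h1C
    change a * 1 ∈ C
    rwa [mul_one]
  let N : Subgroup H :=
    { carrier := C
      mul_mem' := fun {a b} ha hb => by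
        have := hCC a ha
        rw [← this] at hb
        exact hb
      one_mem' := h1C
      inv_mem' := fun {a} ha => by
        have h2 : a⁻¹ ∈ (fun x => a * x) ⁻¹' C := by
          change a * a⁻¹ ∈ C
          rwa [mul_inv_cancel]
        rwa [hCC a ha] at h2 }
  have hNC : ∀ h, h ∈ N ↔ h ∈ C := fun h => Iff.rfl
  -- the cosets
  have hset : {E | E ∈ irreducibleComponents H ∧ ∃ g : H, E = (fun x => g⁻¹ * x) ⁻¹' C}.Finite :=
    hfin.subset fun E hE => hE.1
  choose! sel hsel using fun (E : Set H) (hE : E ∈ {E | E ∈ irreducibleComponents H ∧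
    ∃ g : H, E = (fun x => g⁻¹ * x) ⁻¹' C}) => hE.2
  refine ⟨N, hset.toFinset.image sel, ?_, ?_⟩
  · intro f hf g hg hfg
    obtain ⟨P, hP⟩ := pol_poly _ hf
    obtain ⟨Q, hQ⟩ := pol_poly _ hg
    have hPc : IsClosed {h : H | MvPolynomial.aeval (pt ρ h) P = 0} :=
      (zar_isClosed ρ _).2 ⟨{P}, by ext; simp⟩
    have hQc : IsClosed {h : H | MvPolynomial.aeval (pt ρ h) Q = 0} :=
      (zar_isClosed ρ _).2 ⟨{Q}, by ext; simp⟩
    rcases isPreirreducible_iff_isClosed_union_isClosed.1 hC.1.2 _ _ hPc hQc (by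
      intro h hh
      have h1 := hfg ⟨h, hh⟩
      rw [hP, hQ] at h1
      exact mul_eq_zero.1 h1) with h1 | h1
    · left
      rintro ⟨h, hh⟩
      rw [hP]
      exact h1 hh
    · right
      rintro ⟨h, hh⟩
      rw [hQ]
      exact h1 hh
  · intro h
    have hmem : (fun x => h⁻¹ * x) ⁻¹' C ∈ {E | E ∈ irreducibleComponents H ∧
        ∃ g : H, E = (fun x => g⁻¹ * x) ⁻¹' C} := ⟨hmove h⁻¹ C hC, h, rfl⟩
    refine ⟨sel _, Finset.mem_image_of_mem _ (hset.mem_toFinset.2 hmem), ?_⟩
    have h2 := hsel _ hmem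
    have h3 : h ∈ (fun x => h⁻¹ * x) ⁻¹' C := by
      change h⁻¹ * h ∈ C
      rwa [inv_mul_cancel]
    rw [h2] at h3
    exact h3

end Pool.Agent.K6.H47.SG
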