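import Pool.Agent.K6.H47.SG.Grp

set_option autoImplicit false

/-! # Products along paths of a graph whose vertices are good sets of matrices -/

namespace Pool.Agent.K6.H47.SG

open Matrix Pool.Agent.TH717.GO

variable {K : Type} [Field K] {n r : ℕ} {X : Set (Fin (n + 1) → K)}

/-- a Zariski closed monoid of matrices -/
structure Mon (S : Set (Mt r K)) : Prop where
  one : (1 : Mt r K) ∈ S
  mul : ∀ a ∈ S, ∀ b ∈ S, a * b ∈ S
  closed : cl S ⊆ S

theorem Mon.cl_sub {S : Set (Mt r K)} (hS : Mon S) {Y : Set (Mt r K)} (h : Y ⊆ S) : cl Y ⊆ S :=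
  (cl_mono h).trans hS.closed

section words

variable {I : Type} (Q : I → Set (Mt r K))

/-- the products of the elements of the sets given by a word -/
def prodSet : List I → Set (Mt r K)
  | [] => {1}
  | i :: w => {z | ∃ q ∈ Q i, ∃ y ∈ prodSet w, z = q * y}

theorem prodSet_nil : prodSet Q [] = {1} := rfl

theorem mem_cons {i : I} {w : List I} {z : Mt r K} :
    z ∈ prodSet Q (i :: w) ↔ ∃ q ∈ Q i, ∃ y ∈ prodSet Q w, z = q * y := Iff.rfl

theorem mem_single {i : I} {z : Mt r K} : z ∈ prodSet Q [i] ↔ z ∈ Q i := by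
  rw [mem_cons]
  constructor
  · rintro ⟨q, hq, y, hy, rfl⟩
    rw [show y = 1 from hy, mul_one]
    exact hq
  · intro hz
    exact ⟨z, hz, 1, rfl, (mul_one z).symm⟩

theorem mem_append {w w' : List I} {z : Mt r K} :
    z ∈ prodSet Q (w ++ w') ↔ ∃ a ∈ prodSet Q w, ∃ b ∈ prodSet Q w', z = a * b := by
  induction w generalizing z with
  | nil =>
    rw [List.nil_append]
    constructor
    · intro hz
      exact ⟨1, rfl, z, hz, (one_mul z).symm⟩
    · rintro ⟨a, ha, b, hb, rfl⟩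
      rw [show a = 1 from ha, one_mul]
      exact hb
  | cons i w ih =>
    rw [List.cons_append, mem_cons]
    constructor
    · rintro ⟨q, hq, y, hy, rfl⟩
      obtain ⟨a, ha, b, hb, rfl⟩ := ih.1 hy
      exact ⟨q * a, ⟨q, hq, a, ha, rfl⟩, b, hb, (mul_assoc _ _ _).symm⟩
    · rintro ⟨_, ⟨q, hq, a, ha, rfl⟩, b, hb, rfl⟩
      exact ⟨q, hq, a * b, ih.2 ⟨a, ha, b, hb, rfl⟩, mul_assoc _ _ _⟩

theorem prodSet_good (hQ : ∀ i, GoodSet X (Q i)) (w : List I) : GoodSet X (prodSet Q w) := by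
  induction w with
  | nil => exact goodSet_singleton 1
  | cons i w ih => exact (hQ i).mul ih

theorem prodSet_sub {S : Set (Mt r K)} (hS : Mon S) (hQ : ∀ i, Q i ⊆ S) (w : List I) :
    prodSet Q w ⊆ S := by
  induction w with
  | nil =>
    rintro _ rfl
    exact hS.one
  | cons i w ih =>
    rintro _ ⟨q, hq, y, hy, rfl⟩
    exact hS.mul _ (hQ i hq) _ (ih hy)

theorem prodSet_fac {ρ : ℕ} (hQ : ∀ i, ∀ q ∈ Q i, Fac ρ q) {w : List I} (hw : w ≠ [])
    {z : Mt r K} (hz : z ∈ prodSet Q w) : Fac ρ z := by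
  cases w with
  | nil => exact absurd rfl hw
  | cons i w =>
    obtain ⟨q, hq, y, hy, rfl⟩ := hz
    exact (hQ i q hq).mul_right y

end words

/-! ### Paths -/

section paths

variable {I : Type} (E : I → I → Prop)

/-- paths in a graph -/
inductive Path : I → I → List I → Prop
  | single (i : I) : Path i i [i]
  | cons {i j k : I} {w : List I} (h : E i j) (hw : Path j k w) : Path i k (i :: w)

variable {E}

theorem Path.append {i j k l : I} {w w' : List I} (h : Path E i j w) (he : E j k)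
    (h' : Path E k l w') : Path E i l (w ++ w') := by
  induction h with
  | single i => exact Path.cons he h'
  | cons h1 _ ih => exact Path.cons h1 (ih he)

theorem Path.ne_nil {i j : I} {w : List I} (h : Path E i j w) : w ≠ [] := by
  cases h <;> exact List.cons_ne_nil _ _

theorem Path.split {i j : I} {w : List I} (h : Path E i j w) :
    (i = j ∧ w = [i]) ∨ ∃ mid, w = i :: (mid ++ [j]) := by
  induction h with
  | single i => exact Or.inl ⟨rfl, rfl⟩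
  | @cons i j k w _ _ ih =>
    right
    rcases ih with ⟨rfl, rfl⟩ | ⟨mid, rfl⟩
    · exact ⟨[], rfl⟩
    · exact ⟨j :: mid, rfl⟩

/-- decomposition at the last visit of a vertex -/
theorem Path.last_visit {a j : I} {w : List I} (h : Path E a j w) (i : I) (hi : i ∈ w) :
    ∃ y w', w = y ++ i :: w' ∧ i ∉ w' ∧ ((y = [] ∧ a = i) ∨ ∃ l, E l i ∧ Path E a l y) ∧
      ((w' = [] ∧ j = i) ∨ ∃ k, E i k ∧ Path E k j w') := by
  induction h with
  | single a =>
    rw [List.mem_singleton] at hi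
    exact ⟨[], [], by rw [hi]; rfl, List.not_mem_nil, Or.inl ⟨rfl, hi.symm⟩,
      Or.inl ⟨rfl, hi.symm⟩⟩
  | @cons a b j w hab hw ih =>
    by_cases hiw : i ∈ w
    · obtain ⟨y, w', rfl, h1, h2, h3⟩ := ih hiw
      refine ⟨a :: y, w', rfl, h1, Or.inr ?_, h3⟩
      rcases h2 with ⟨rfl, rfl⟩ | ⟨l, hl, hy⟩
      · exact ⟨a, hab, Path.single a⟩
      · exact ⟨l, hl, Path.cons hab hy⟩
    · rcases List.mem_cons.1 hi with rfl | hi
      · exact ⟨[], w, rfl, hiw, Or.inl ⟨rfl, rfl⟩, Or.inr ⟨b, hab, hw⟩⟩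
      · exact absurd hi hiw

end paths

/-! ### Generic ranks -/

theorem pf_det {ρ : ℕ} (S : Matrix (Fin ρ) (Fin r) K) (a b : Mt r K)
    (R : Matrix (Fin r) (Fin ρ) K) : (fun y : Mt r K => (S * (a * y * b) * R).det) ∈ PF r K :=
  Ent.det (Ent.mul (Ent.mul (Ent.const _ S)
    (Ent.mul (Ent.mul (Ent.const _ a) ent_id) (Ent.const _ b))) (Ent.const _ R))

theorem GoodSet.rk2 {Y : Set (Mt r K)} (hY : GoodSet X Y) {ρ : ℕ} {a b a' b' : Mt r K}
    (h1 : ∃ y ∈ Y, Rk ρ (a * y * b)) (h2 : ∃ y ∈ Y, Rk ρ (a' * y * b')) :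
    ∃ y ∈ Y, Rk ρ (a * y * b) ∧ Rk ρ (a' * y * b') := by
  obtain ⟨T, A, m, hA, hm, rfl⟩ := hY
  obtain ⟨_, ⟨t, rfl⟩, S, R, h1⟩ := h1
  obtain ⟨_, ⟨t', rfl⟩, S', R', h2⟩ := h2
  obtain ⟨u, hu, hu'⟩ := hA.exists_ne (pf_comp hm (pf_det S a b R))
    (pf_comp hm (pf_det S' a' b' R')) ⟨t, h1⟩ ⟨t', h2⟩
  exact ⟨m u, ⟨u, rfl⟩, ⟨S, R, hu⟩, ⟨S', R', hu'⟩⟩

section loops

variable {I : Type} (Q : I → Set (Mt r K)) (ρ : ℕ)

/-- the generic rank of the product is `ρ` -/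
def Edge (i j : I) : Prop := ∃ q ∈ Q i, ∃ q' ∈ Q j, Rk ρ (q * q')

variable {Q ρ}

theorem path_rk (hQ : ∀ i, GoodSet X (Q i)) (hF : ∀ i, ∀ q ∈ Q i, Fac ρ q) {i j : I}
    {w : List I} (hw : Path (Edge Q ρ) i j w) (a b : Mt r K) (ha : ∃ q ∈ Q i, Rk ρ (a * q))
    (hb : ∃ q ∈ Q j, Rk ρ (q * b)) : ∃ y ∈ prodSet Q w, Rk ρ (a * y * b) := by
  induction hw generalizing a with
  | single i =>
    obtain ⟨q, hq, h1, h2⟩ := (hQ i).rk2 (ρ := ρ) (a := a) (b := 1) (a' := 1) (b' := b)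
      (by simpa only [mul_one] using ha) (by simpa only [one_mul] using hb)
    rw [mul_one] at h1
    rw [one_mul] at h2
    exact ⟨q, (mem_single Q).2 hq, frob (hF i q hq) h1 h2⟩
  | @cons i j k w hij _ ih =>
    obtain ⟨q0, hq0, q1, hq1, h01⟩ := hij
    obtain ⟨q, hq, h1, h2⟩ := (hQ i).rk2 (ρ := ρ) (a := a) (b := 1) (a' := 1) (b' := q1)
      (by simpa only [mul_one] using ha) ⟨q0, hq0, by simpa only [one_mul] using h01⟩
    rw [mul_one] at h1
    rw [one_mul] at h2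
    obtain ⟨y, hy, h3⟩ := ih q ⟨q1, hq1, h2⟩ hb
    refine ⟨q * y, ⟨q, hq, y, hy, rfl⟩, ?_⟩
    have h4 := frob (a := a) (c := y * b) (hF i q hq) h1 (by rwa [← mul_assoc])
    rwa [mul_assoc a q y |>.symm, mul_assoc (a * q) y b]

theorem exists_cc (hQ : ∀ i, GoodSet X (Q i)) (hF : ∀ i, ∀ q ∈ Q i, Fac ρ q) {i j : I}
    {w : List I} (hw : Path (Edge Q ρ) i j w) (hji : Edge Q ρ j i) :
    ∃ c ∈ prodSet Q (w ++ w), Rk ρ (c * c) := by
  obtain ⟨q0, hq0, p0, hp0, h0⟩ := hji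
  obtain ⟨y, hy, h1⟩ := path_rk hQ hF hw q0 p0 ⟨p0, hp0, h0⟩ ⟨q0, hq0, h0⟩
  obtain ⟨y', hy', h2⟩ := path_rk hQ hF hw y y
    ⟨p0, hp0, by rw [mul_assoc] at h1; exact h1.of_mul_left⟩ ⟨q0, hq0, h1.of_mul_right⟩
  refine ⟨y * y', (mem_append Q).2 ⟨y, hy, y', hy', rfl⟩, ?_⟩
  have h3 := frob (a := y * y') (c := y') (prodSet_fac Q hF hw.ne_nil hy) h2 h2.of_mul_right
  rwa [mul_assoc (y * y') y y'] at h3

end loops

end Pool.Agent.K6.H47.SG
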