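import Pool.Agent.K6.H47.SG.Cover

set_option autoImplicit false

/-! # Finitely generated monoids of matrices: covering by finitely many good sets -/

namespace Pool.Agent.K6.H47.SG

open Matrix Pool.Agent.TH717.GO

variable {K : Type} [Field K] {n r : ℕ} {X : Set (Fin (n + 1) → K)}

theorem cl_mulSet {Y Y' : Set (Mt r K)} {a b : Mt r K} (ha : a ∈ cl Y) (hb : b ∈ cl Y') :
    a * b ∈ cl (mulSet Y Y') :=
  cl_mul (S := Y) (S' := Y') (U := mulSet Y Y')
    (fun s hs s' hs' => subset_cl _ ⟨s, hs, s', hs', rfl⟩) ha hb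

theorem mulSet_sub {S Y Y' : Set (Mt r K)} (hS : Mon S) (h : Y ⊆ S) (h' : Y' ⊆ S) :
    mulSet Y Y' ⊆ S := by
  rintro _ ⟨y, hy, y', hy', rfl⟩
  exact hS.mul _ (h hy) _ (h' hy')

/-- all paths with vertices in a finite set -/
theorem run_cover {k : Type} [Field k] {FF : Set (MvPolynomial (Fin (n + 1)) k)} [Algebra k K]
    (hs : Setup k n FF K) {S : Set (Mt r K)} (hS : Mon S) {I : Type} [Finite I]
    {Q : I → Set (Mt r K)} {ρ : ℕ} (hQ : ∀ i, GoodSet (cone FF K) (Q i))
    (hF : ∀ i, ∀ q ∈ Q i, Fac ρ q) (hQS : ∀ i, Q i ⊆ S) (U : Finset I) (i j : I) :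
    ∃ Ys : Set (Set (Mt r K)), Ys.Finite ∧
      (∀ Y ∈ Ys, GoodSet (cone FF K) Y ∧ Y ⊆ S ∧ (∀ z ∈ Y, ∃ q ∈ Q i, ∃ z', z = q * z') ∧
        ∀ z ∈ Y, ∃ q ∈ Q j, ∃ z', z = z' * q) ∧
      ∀ w, Path (Edge Q ρ) i j w → (∀ x ∈ w, x ∈ U) → ∃ Y ∈ Ys, prodSet Q w ⊆ cl Y := by
  classical
  induction U using Finset.strongInduction generalizing i j with
  | H U ih =>
    by_cases hiU : i ∈ U
    swap
    · refine ⟨∅, Set.finite_empty, fun Y hY => absurd hY (Set.notMem_empty Y), fun w hw hU => ?_⟩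
      exfalso
      apply hiU
      cases hw with
      | single i => exact hU _ (List.mem_singleton.2 rfl)
      | cons h1 h2 => exact hU _ List.mem_cons_self
    have hL : ∀ l : I, ∃ Ls : Set (Set (Mt r K)), Ls.Finite ∧
        (∀ Y ∈ Ls, GoodSet (cone FF K) Y ∧ Y ⊆ S ∧ ∀ z ∈ Y, ∃ q ∈ Q i, ∃ z', z = q * z') ∧
        ∀ w, Edge Q ρ l i → Path (Edge Q ρ) i l w → ∃ Y ∈ Ls, prodSet Q w ⊆ cl Y := by
      intro l
      by_cases hl : Edge Q ρ l i
      · obtain ⟨Ls, h1, h2, h3⟩ := loop_cover hs hS hQ hF hQS hl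
        exact ⟨Ls, h1, h2, fun w _ hw => h3 w hw⟩
      · exact ⟨∅, Set.finite_empty, fun Y hY => absurd hY (Set.notMem_empty Y),
          fun w h => absurd h hl⟩
    choose Ls hL1 hL2 hL3 using hL
    choose Ns hN1 hN2 hN3 using fun k : I => ih (U.erase i) (Finset.erase_ssubset hiU) k j
    let As : Set (Set (Mt r K)) := {{1}} ∪ ⋃ l, Ls l
    let Bs : Set (Set (Mt r K)) := {B | B = {1} ∧ j = i} ∪ ⋃ k, Ns k
    have hAs : As.Finite := (Set.finite_singleton _).union (Set.finite_iUnion hL1)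
    have hBs : Bs.Finite := ((Set.finite_singleton ({1} : Set (Mt r K))).subset
      (fun B hB => hB.1)).union (Set.finite_iUnion hN1)
    have h1S : ({1} : Set (Mt r K)) ⊆ S := by
      rintro _ rfl
      exact hS.one
    refine ⟨Set.image2 (fun A B => mulSet (mulSet A (Q i)) B) As Bs, hAs.image2 _ hBs, ?_, ?_⟩
    · rintro _ ⟨A, hA, B, hB, rfl⟩
      have hA' : GoodSet (cone FF K) A ∧ A ⊆ S := by
        rcases hA with rfl | hA
        · exact ⟨goodSet_singleton 1, h1S⟩
        · obtain ⟨l, hl⟩ := Set.mem_iUnion.1 hA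
          exact ⟨(hL2 l A hl).1, (hL2 l A hl).2.1⟩
      have hB' : GoodSet (cone FF K) B ∧ B ⊆ S := by
        rcases hB with ⟨rfl, -⟩ | hB
        · exact ⟨goodSet_singleton 1, h1S⟩
        · obtain ⟨l, hl⟩ := Set.mem_iUnion.1 hB
          exact ⟨(hN2 l B hl).1, (hN2 l B hl).2.1⟩
      refine ⟨(hA'.1.mulSet (hQ i)).mulSet hB'.1,
        mulSet_sub hS (mulSet_sub hS hA'.2 (hQS i)) hB'.2, ?_, ?_⟩
      · rintro _ ⟨_, ⟨a, ha, q, hq, rfl⟩, b, hb, rfl⟩
        rcases hA with rfl | hA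
        · rw [show a = 1 from ha, one_mul]
          exact ⟨q, hq, b, rfl⟩
        · obtain ⟨l, hl⟩ := Set.mem_iUnion.1 hA
          obtain ⟨q', hq', a', rfl⟩ := (hL2 l A hl).2.2 a ha
          exact ⟨q', hq', a' * q * b, by simp only [mul_assoc]⟩
      · rintro _ ⟨_, ⟨a, ha, q, hq, rfl⟩, b, hb, rfl⟩
        rcases hB with ⟨rfl, rfl⟩ | hB
        · rw [show b = 1 from hb, mul_one]
          exact ⟨q, hq, a, rfl⟩
        · obtain ⟨l, hl⟩ := Set.mem_iUnion.1 hB
          obtain ⟨q', hq', b', rfl⟩ := (hN2 l B hl).2.2.2 b hb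
          exact ⟨q', hq', a * q * b', by simp only [mul_assoc]⟩
    · intro w hw hU
      have hiw : i ∈ w := by
        cases hw with
        | single i => exact List.mem_singleton.2 rfl
        | cons h1 h2 => exact List.mem_cons_self
      obtain ⟨y, w', rfl, hnot, hy, hw'⟩ := hw.last_visit i hiw
      obtain ⟨A, hA, hA'⟩ : ∃ A ∈ As, prodSet Q y ⊆ cl A := by
        rcases hy with ⟨rfl, -⟩ | ⟨l, hl, hpl⟩
        · exact ⟨{1}, Or.inl rfl, subset_cl _⟩
        · obtain ⟨Y, hY, hsub⟩ := hL3 l y hl hpl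
          exact ⟨Y, Or.inr (Set.mem_iUnion.2 ⟨l, hY⟩), hsub⟩
      obtain ⟨B, hB, hB'⟩ : ∃ B ∈ Bs, prodSet Q w' ⊆ cl B := by
        rcases hw' with ⟨rfl, hj⟩ | ⟨l, -, hpl⟩
        · exact ⟨{1}, Or.inl ⟨rfl, hj⟩, subset_cl _⟩
        · obtain ⟨Y, hY, hsub⟩ := hN3 l w' hpl (fun x hx => Finset.mem_erase.2
            ⟨fun h => hnot (h ▸ hx), hU x (by simp [hx])⟩)
          exact ⟨Y, Or.inr (Set.mem_iUnion.2 ⟨l, hY⟩), hsub⟩
      refine ⟨_, ⟨A, hA, B, hB, rfl⟩, ?_⟩
      intro z hz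
      obtain ⟨a, ha, _, ⟨q, hq, b, hb, rfl⟩, rfl⟩ := (mem_append Q).1 hz
      rw [← mul_assoc]
      exact cl_mulSet (cl_mulSet (hA' ha) (subset_cl _ hq)) (hB' hb)

/-- decomposition of words in paths -/
theorem exists_runs {I : Type} (E : I → I → Prop) (w : List I) (hw : w ≠ []) :
    ∃ rs : List (I × I × List I), rs ≠ [] ∧ (∀ p ∈ rs, Path E p.1 p.2.1 p.2.2) ∧
      (rs.map fun p => p.2.2).flatten = w ∧ rs.IsChain fun p p' => ¬ E p.2.1 p'.1 := by
  classical
  induction w with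
  | nil => exact absurd rfl hw
  | cons i w ih =>
    by_cases hw0 : w = []
    · subst hw0
      refine ⟨[(i, i, [i])], List.cons_ne_nil _ _, ?_, rfl, List.isChain_singleton _⟩
      intro p hp
      rw [List.mem_singleton] at hp
      rw [hp]
      exact Path.single i
    · obtain ⟨rs, hne, hp, hf, hch⟩ := ih hw0
      obtain ⟨⟨a, b, u⟩, rs', rfl⟩ := List.exists_cons_of_ne_nil hne
      by_cases hE : E i a
      · refine ⟨(i, b, i :: u) :: rs', List.cons_ne_nil _ _, ?_, ?_, ?_⟩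
        · intro p hp'
          rcases List.mem_cons.1 hp' with rfl | hp'
          · exact Path.cons hE (hp (a, b, u) List.mem_cons_self)
          · exact hp p (List.mem_cons_of_mem _ hp')
        · rw [← hf]
          simp
        · cases rs' with
          | nil => exact List.isChain_singleton _
          | cons x xs =>
            rw [List.isChain_cons_cons] at hch ⊢
            exact hch
      · refine ⟨(i, i, [i]) :: (a, b, u) :: rs', List.cons_ne_nil _ _, ?_, ?_, ?_⟩
        · intro p hp'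
          rcases List.mem_cons.1 hp' with rfl | hp'
          · exact Path.single i
          · exact hp p hp'
        · rw [← hf]
          simp
        · rw [List.isChain_cons_cons]
          exact ⟨hE, hch⟩

/-- **Covering of the products of all words by finitely many good sets.** -/
theorem word_cover {k : Type} [Field k] {FF : Set (MvPolynomial (Fin (n + 1)) k)} [Algebra k K]
    (hs : Setup k n FF K) {S : Set (Mt r K)} (hS : Mon S) (ρ : ℕ) :
    ∀ (I : Type) [Finite I] (Q : I → Set (Mt r K)), (∀ i, GoodSet (cone FF K) (Q i)) →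
      (∀ i, ∀ q ∈ Q i, Fac ρ q) → (∀ i, Q i ⊆ S) →
      ∃ Ys : Set (Set (Mt r K)), Ys.Finite ∧ (∀ Y ∈ Ys, GoodSet (cone FF K) Y ∧ Y ⊆ S) ∧
        ∀ w, w ≠ [] → ∃ Y ∈ Ys, prodSet Q w ⊆ cl Y := by
  classical
  induction ρ with
  | zero =>
    intro I _ Q hQ hF hQS
    refine ⟨Set.range Q, Set.finite_range Q, ?_, ?_⟩
    · rintro _ ⟨i, rfl⟩
      exact ⟨hQ i, hQS i⟩
    · intro w hw
      cases w with
      | nil => exact absurd rfl hw
      | cons i w =>
        refine ⟨Q i, ⟨i, rfl⟩, ?_⟩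
        rintro _ ⟨q, hq, y, -, rfl⟩
        apply subset_cl
        have h1 := (hF i q hq).zero
        rw [h1, zero_mul, ← h1]
        exact hq
  | succ ρ ih =>
    intro I _ Q hQ hF hQS
    have := Fintype.ofFinite I
    choose Rs hR1 hR2 hR3 using fun i j => run_cover hs hS hQ hF hQS Finset.univ i j
    -- the good sets for paths, with their ends
    let J0 : Set (I × I × Set (Mt r K)) := {p | p.2.2 ∈ Rs p.1 p.2.1}
    have hJ0 : J0.Finite := by
      have h1 : J0 ⊆ ⋃ i : I, ⋃ j : I, (fun Y => (i, j, Y)) '' Rs i j := by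
        rintro ⟨i, j, Y⟩ hY
        exact Set.mem_iUnion.2 ⟨i, Set.mem_iUnion.2 ⟨j, Y, hY, rfl⟩⟩
      exact (Set.finite_iUnion fun i => Set.finite_iUnion fun j => (hR1 i j).image _).subset h1
    have : Finite J0 := hJ0
    let Yf : J0 → Set (Mt r K) := fun p => p.1.2.2
    have hYg : ∀ p : J0, GoodSet (cone FF K) (Yf p) := fun p => (hR2 _ _ _ p.2).1
    have hYS : ∀ p : J0, Yf p ⊆ S := fun p => (hR2 _ _ _ p.2).2.1
    let I' : Type := {x : J0 × J0 × Option J0 // ¬ Edge Q (ρ + 1) x.1.1.2.1 x.2.1.1.1}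
    let Op : Option J0 → Set (Mt r K) := fun o => o.elim {1} Yf
    have hOg : ∀ o, GoodSet (cone FF K) (Op o) := by
      rintro (_ | p)
      · exact goodSet_singleton 1
      · exact hYg p
    have hOS : ∀ o, Op o ⊆ S := by
      rintro (_ | p)
      · rintro _ rfl
        exact hS.one
      · exact hYS p
    let Q' : I' → Set (Mt r K) := fun x => mulSet (Yf x.1.1) (mulSet (Yf x.1.2.1) (Op x.1.2.2))
    obtain ⟨Ys, hY1, hY2, hY3⟩ := ih I' Q'
      (fun x => (hYg _).mulSet ((hYg _).mulSet (hOg _)))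
      (by
        rintro ⟨⟨p, p', o⟩, hx⟩ _ ⟨y, hy, _, ⟨y', hy', m, -, rfl⟩, rfl⟩
        obtain ⟨q, hq, z, rfl⟩ := (hR2 _ _ _ p.2).2.2.2 y hy
        obtain ⟨q', hq', z', rfl⟩ := (hR2 _ _ _ p'.2).2.2.1 y' hy'
        have h1 : Fac ρ (q * q') := by
          rcases rk_or_fac ρ (q * q') with h1 | h1
          · exact absurd ⟨q, hq, q', hq', h1⟩ hx
          · exact h1
        have h2 := (h1.mul_left z).mul_right (z' * m)
        have h3 : z * (q * q') * (z' * m) = z * q * (q' * z' * m) := by simp only [mul_assoc]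
        rwa [h3] at h2)
      (fun x => mulSet_sub hS (hYS _) (mulSet_sub hS (hYS _) (hOS _)))
    have hA : ∀ rs : List (I × I × List I), (∀ p ∈ rs, Path (Edge Q (ρ + 1)) p.1 p.2.1 p.2.2) →
        (rs.IsChain fun p p' => ¬ Edge Q (ρ + 1) p.2.1 p'.1) →
        ∃ ps : List J0, ps.map (fun p => (p.1.1, p.1.2.1)) = rs.map (fun p => (p.1, p.2.1)) ∧
          prodSet Q (rs.map fun p => p.2.2).flatten ⊆ cl (prodSet Yf ps) := by
      intro rs
      induction rs with
      | nil =>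
        intro _ _
        exact ⟨[], rfl, subset_cl _⟩
      | cons p rs ihr =>
        intro hp hch
        obtain ⟨ps, hps, hsub⟩ := ihr (fun p hp' => hp p (List.mem_cons_of_mem _ hp')) hch.tail
        obtain ⟨Y, hY, hYs⟩ := hR3 p.1 p.2.1 p.2.2 (hp p List.mem_cons_self)
          (fun x _ => Finset.mem_univ x)
        refine ⟨⟨(p.1, p.2.1, Y), hY⟩ :: ps, ?_, ?_⟩
        · rw [List.map_cons, List.map_cons, hps]
        · intro z hz
          rw [List.map_cons, List.flatten_cons] at hz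
          obtain ⟨a, ha, b, hb, rfl⟩ := (mem_append Q).1 hz
          exact cl_mulSet (hYs ha) (hsub hb)
    have hB : ∀ m : ℕ, ∀ ps : List J0, ps.length = m + 2 →
        (ps.IsChain fun p p' => ¬ Edge Q (ρ + 1) p.1.2.1 p'.1.1) →
        ∃ w' : List I', w' ≠ [] ∧ prodSet Yf ps ⊆ prodSet Q' w' := by
      intro m
      induction m using Nat.strongRecOn with
      | ind m ihm =>
        intro ps hlen hch
        obtain ⟨p, ps, rfl⟩ := List.exists_cons_of_length_eq_add_one hlen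
        rw [List.length_cons] at hlen
        obtain ⟨p', ps, rfl⟩ := List.exists_cons_of_length_eq_add_one (by omega : ps.length = m + 1)
        rw [List.length_cons] at hlen
        have hpp : ¬ Edge Q (ρ + 1) p.1.2.1 p'.1.1 := (List.isChain_cons_cons.1 hch).1
        match ps, hlen, hch with
        | [], _, _ =>
          refine ⟨[⟨(p, p', none), hpp⟩], List.cons_ne_nil _ _, ?_⟩
          rintro _ ⟨y, hy, _, ⟨y', hy', e, he, rfl⟩, rfl⟩
          exact ⟨_, ⟨y, hy, _, ⟨y', hy', 1, rfl, rfl⟩, rfl⟩, 1, rfl, by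
            rw [show e = 1 from he, mul_one, mul_one]⟩
        | [p''], _, _ =>
          refine ⟨[⟨(p, p', some p''), hpp⟩], List.cons_ne_nil _ _, ?_⟩
          rintro _ ⟨y, hy, _, ⟨y', hy', _, ⟨y'', hy'', e, he, rfl⟩, rfl⟩, rfl⟩
          exact ⟨_, ⟨y, hy, _, ⟨y', hy', y'', hy'', rfl⟩, rfl⟩, 1, rfl, by
            rw [show e = 1 from he, mul_one, mul_one]⟩
        | (a :: b :: ps), hlen, hch =>
          simp only [List.length_cons] at hlen
          obtain ⟨w', -, hw2⟩ := ihm (m - 2) (by omega) (a :: b :: ps)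
            (by simp only [List.length_cons]; omega) hch.tail.tail
          refine ⟨⟨(p, p', none), hpp⟩ :: w', List.cons_ne_nil _ _, ?_⟩
          rintro _ ⟨y, hy, _, ⟨y', hy', e, he, rfl⟩, rfl⟩
          exact ⟨_, ⟨y, hy, _, ⟨y', hy', 1, rfl, rfl⟩, rfl⟩, e, hw2 he, by
            rw [mul_one]; simp only [mul_assoc]⟩
    refine ⟨Ys ∪ Set.range Yf, hY1.union (Set.finite_range Yf), ?_, ?_⟩
    · rintro Y (hY | ⟨p, rfl⟩)
      · exact hY2 Y hY
      · exact ⟨hYg p, hYS p⟩
    · intro w hw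
      obtain ⟨rs, hne, hp, hf, hch⟩ := exists_runs (Edge Q (ρ + 1)) w hw
      obtain ⟨ps, hps, hsub⟩ := hA rs hp hch
      rw [hf] at hsub
      have hlen : ps.length = rs.length := by
        have := congrArg List.length hps
        simpa using this
      have hpsch : ps.IsChain fun p p' => ¬ Edge Q (ρ + 1) p.1.2.1 p'.1.1 := by
        have h1 : (ps.map fun p => (p.1.1, p.1.2.1)).IsChain
            fun x y : I × I => ¬ Edge Q (ρ + 1) x.2 y.1 := by
          rw [hps, List.isChain_map]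
          exact hch
        rwa [List.isChain_map] at h1
      have hpos : 0 < rs.length := List.length_pos_iff.2 hne
      rcases Nat.lt_or_ge ps.length 2 with h2 | h2
      · obtain ⟨p, rfl⟩ := List.length_eq_one_iff.1 (by omega : ps.length = 1)
        refine ⟨Yf p, Or.inr ⟨p, rfl⟩, ?_⟩
        intro z hz
        have h3 := hsub hz
        exact cl_mono (fun z hz => (mem_single Yf).1 hz) h3
      · obtain ⟨w', hw', hsub'⟩ := hB (ps.length - 2) ps (by omega) hpsch
        obtain ⟨Y, hY, hsub''⟩ := hY3 w' hw'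
        exact ⟨Y, Or.inl hY, fun z hz => cl_le (hsub'.trans hsub'') (hsub hz)⟩

end Pool.Agent.K6.H47.SG
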