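import Mathlib

set_option autoImplicit false

/-! # Ranks of square matrices by factorisations and minors -/

namespace Pool.Agent.K6.H47.SG

open Matrix

variable {L : Type} [Field L] {r : ℕ}

/-- square matrices of size `r` -/
abbrev Mt (r : ℕ) (L : Type) : Type := Matrix (Fin r) (Fin r) L

/-- the rank is at least `ρ` -/
def Rk (ρ : ℕ) (z : Mt r L) : Prop :=
  ∃ (S : Matrix (Fin ρ) (Fin r) L) (R : Matrix (Fin r) (Fin ρ) L), (S * z * R).det ≠ 0

/-- the rank is at most `ρ` -/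
def Fac (ρ : ℕ) (z : Mt r L) : Prop :=
  ∃ (J : Matrix (Fin r) (Fin ρ) L) (K : Matrix (Fin ρ) (Fin r) L), z = J * K

theorem nf (z : Mt r L) : ∃ (k : ℕ) (J : Matrix (Fin r) (Fin k) L) (K : Matrix (Fin k) (Fin r) L)
    (S : Matrix (Fin k) (Fin r) L) (R : Matrix (Fin r) (Fin k) L), z = J * K ∧ S * z * R = 1 := by
  classical
  obtain ⟨V, U, e, hV, hU, h⟩ := z.exists_rank_normal_form
  obtain ⟨E, hE⟩ : ∃ E : Matrix (Fin r) (Fin z.rank) L,
      ∀ i j, E i j = if e i = Sum.inl j then 1 else 0 :=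
    ⟨Matrix.of fun i j => if e i = Sum.inl j then 1 else 0, fun _ _ => rfl⟩
  have hEE : (fromBlocks (1 : Matrix (Fin z.rank) (Fin z.rank) L) 0 0 0).submatrix e e
      = E * Eᵀ := by
    ext i j
    rw [submatrix_apply, mul_apply]
    simp only [transpose_apply, hE]
    rcases hi : e i with a | a <;> rcases hj : e j with b | b
    · rw [fromBlocks_apply₁₁]
      simp only [Sum.inl.injEq]
      rw [Finset.sum_eq_single a]
      · by_cases hab : a = b
        · subst hab; simp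
        · have hba : ¬ b = a := fun h => hab h.symm
          simp [one_apply_ne hab, hba]
      · intro c _ hc
        rw [if_neg (fun h => hc h.symm), zero_mul]
      · intro h; exact absurd (Finset.mem_univ _) h
    · rw [fromBlocks_apply₁₂]
      simp
    · rw [fromBlocks_apply₂₁]
      simp
    · rw [fromBlocks_apply₂₂]
      simp
  have hE1 : Eᵀ * E = 1 := by
    ext a b
    rw [mul_apply, Finset.sum_eq_single (e.symm (Sum.inl a))]
    · simp only [transpose_apply, hE, Equiv.apply_symm_apply, Sum.inl.injEq]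
      by_cases hab : a = b
      · subst hab; simp
      · rw [one_apply_ne hab, if_neg hab, mul_zero]
    · intro c _ hc
      simp only [transpose_apply, hE]
      rw [if_neg, zero_mul]
      intro h
      apply hc
      rw [← h, Equiv.symm_apply_apply]
    · intro h; exact absurd (Finset.mem_univ _) h
  have hVd : IsUnit V.det := (isUnit_iff_isUnit_det _).1 hV
  have hUd : IsUnit U.det := (isUnit_iff_isUnit_det _).1 hU
  rw [hEE] at h
  refine ⟨z.rank, V⁻¹ * E, Eᵀ * U⁻¹, Eᵀ * V, U * E, ?_, ?_⟩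
  · calc z = V⁻¹ * (V * z * U) * U⁻¹ := by
          rw [Matrix.mul_assoc V z U, ← Matrix.mul_assoc V⁻¹, nonsing_inv_mul _ hVd,
            Matrix.one_mul, Matrix.mul_assoc, mul_nonsing_inv _ hUd, Matrix.mul_one]
      _ = V⁻¹ * E * (Eᵀ * U⁻¹) := by rw [h]; simp only [Matrix.mul_assoc]
  · calc Eᵀ * V * z * (U * E) = Eᵀ * (V * z * U) * E := by simp only [Matrix.mul_assoc]
      _ = (Eᵀ * E) * (Eᵀ * E) := by rw [h]; simp only [Matrix.mul_assoc]
      _ = 1 := by rw [hE1, Matrix.one_mul]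

theorem rk_or_fac (ρ : ℕ) (z : Mt r L) : Rk (ρ + 1) z ∨ Fac ρ z := by
  classical
  obtain ⟨k, J, K, S, R, hz, h1⟩ := nf z
  rcases Nat.lt_or_ge ρ k with hk | hk
  · left
    have hk' : ρ + 1 ≤ k := hk
    refine ⟨S.submatrix (Fin.castLE hk') id, R.submatrix id (Fin.castLE hk'), ?_⟩
    have : S.submatrix (Fin.castLE hk') id * z * R.submatrix id (Fin.castLE hk') =
        (S * z * R).submatrix (Fin.castLE hk') (Fin.castLE hk') := by
      ext i j
      simp [mul_apply]
    rw [this, h1, submatrix_one _ (Fin.castLE_injective hk'), det_one]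
    exact one_ne_zero
  · right
    refine ⟨Matrix.of fun i j => if h : (j : ℕ) < k then J i ⟨j, h⟩ else 0,
      Matrix.of fun j i => if h : (j : ℕ) < k then K ⟨j, h⟩ i else 0, ?_⟩
    rw [hz]
    ext a b
    rw [mul_apply, mul_apply]
    simp only [Matrix.of_apply]
    symm
    rw [← Finset.sum_subset (Finset.subset_univ (Finset.univ.map (Fin.castLEEmb hk)))]
    · rw [Finset.sum_map]
      refine Finset.sum_congr rfl fun j _ => ?_
      have : ((Fin.castLEEmb hk j : Fin ρ) : ℕ) < k := j.2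
      rw [dif_pos this, dif_pos this]
      rfl
    · intro j _ hj
      have : ¬ (j : ℕ) < k := by
        intro h
        apply hj
        rw [Finset.mem_map]
        exact ⟨⟨j, h⟩, Finset.mem_univ _, rfl⟩
      rw [dif_neg this, zero_mul]

theorem Fac.mul_left {ρ : ℕ} {z : Mt r L} (h : Fac ρ z) (a : Mt r L) : Fac ρ (a * z) := by
  obtain ⟨J, K, rfl⟩ := h
  exact ⟨a * J, K, by rw [Matrix.mul_assoc]⟩

theorem Fac.mul_right {ρ : ℕ} {z : Mt r L} (h : Fac ρ z) (a : Mt r L) : Fac ρ (z * a) := by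
  obtain ⟨J, K, rfl⟩ := h
  exact ⟨J, K * a, by rw [Matrix.mul_assoc]⟩

theorem Fac.zero {z : Mt r L} (h : Fac 0 z) : z = 0 := by
  obtain ⟨J, K, rfl⟩ := h
  ext i j
  rw [mul_apply]
  simp

theorem fac_self (z : Mt r L) : Fac r z := ⟨z, 1, by rw [Matrix.mul_one]⟩

theorem Rk.of_mul_left {ρ : ℕ} {a z : Mt r L} (h : Rk ρ (a * z)) : Rk ρ z := by
  obtain ⟨S, R, h⟩ := h
  exact ⟨S * a, R, by rwa [Matrix.mul_assoc S a z]⟩

theorem Rk.of_mul_right {ρ : ℕ} {a z : Mt r L} (h : Rk ρ (z * a)) : Rk ρ z := by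
  obtain ⟨S, R, h⟩ := h
  refine ⟨S, a * R, ?_⟩
  rwa [← Matrix.mul_assoc, Matrix.mul_assoc S z a]

/-- Frobenius' rank inequality in a special case -/
theorem frob {ρ : ℕ} {a b c : Mt r L} (hb : Fac ρ b) (h1 : Rk ρ (a * b)) (h2 : Rk ρ (b * c)) :
    Rk ρ (a * b * c) := by
  obtain ⟨J, K, rfl⟩ := hb
  obtain ⟨S, R, h1⟩ := h1
  obtain ⟨S', R', h2⟩ := h2
  refine ⟨S, R', ?_⟩
  have e1 : S * (a * (J * K)) * R = (S * a * J) * (K * R) := by simp only [Matrix.mul_assoc]
  have e2 : S' * (J * K * c) * R' = (S' * J) * (K * c * R') := by simp only [Matrix.mul_assoc]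
  have e3 : S * (a * (J * K) * c) * R' = (S * a * J) * (K * c * R') := by
    simp only [Matrix.mul_assoc]
  rw [e1, det_mul] at h1
  rw [e2, det_mul] at h2
  rw [e3, det_mul]
  exact mul_ne_zero (left_ne_zero_of_mul h1) (right_ne_zero_of_mul h2)

/-- the group part of a matrix `c` with `rank c = rank c ^ 2 = ρ` -/
theorem exists_JK {ρ : ℕ} {c : Mt r L} (hc : Fac ρ c) (h : Rk ρ (c * c)) :
    ∃ (J : Matrix (Fin r) (Fin ρ) L) (K : Matrix (Fin ρ) (Fin r) L) (g : Mt ρ L),
      K * J = 1 ∧ c = J * g * K ∧ g.det ≠ 0 := by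
  obtain ⟨J, K, rfl⟩ := hc
  obtain ⟨S, R, h⟩ := h
  have e1 : S * (J * K * (J * K)) * R = (S * J) * (K * J) * (K * R) := by
    simp only [Matrix.mul_assoc]
  rw [e1, det_mul, det_mul] at h
  have hg : (K * J).det ≠ 0 := right_ne_zero_of_mul (left_ne_zero_of_mul h)
  have hu : IsUnit (K * J).det := hg.isUnit
  refine ⟨J, (K * J)⁻¹ * K, K * J, ?_, ?_, hg⟩
  · rw [Matrix.mul_assoc, nonsing_inv_mul _ hu]
  · rw [Matrix.mul_assoc J, ← Matrix.mul_assoc (K * J), mul_nonsing_inv _ hu, Matrix.one_mul]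

/-- a generalized inverse -/
theorem ginv {ρ : ℕ} {q : Mt r L} (hq : Fac ρ q) (S : Matrix (Fin ρ) (Fin r) L)
    (R : Matrix (Fin r) (Fin ρ) L) (h : (S * q * R).det ≠ 0) :
    q * R * (S * q * R)⁻¹ * (S * q) = q := by
  obtain ⟨J, K, rfl⟩ := hq
  have e1 : S * (J * K) * R = (S * J) * (K * R) := by simp only [Matrix.mul_assoc]
  rw [e1] at h ⊢
  rw [det_mul] at h
  have h1 : IsUnit (S * J).det := (left_ne_zero_of_mul h).isUnit
  have h2 : IsUnit (K * R).det := (right_ne_zero_of_mul h).isUnit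
  rw [Matrix.mul_inv_rev]
  calc J * K * R * ((K * R)⁻¹ * (S * J)⁻¹) * (S * (J * K))
      = J * ((K * R) * (K * R)⁻¹) * ((S * J)⁻¹ * (S * J)) * K := by simp only [Matrix.mul_assoc]
    _ = J * K := by
      rw [mul_nonsing_inv _ h2, nonsing_inv_mul _ h1, Matrix.mul_one, Matrix.mul_one]

end Pool.Agent.K6.H47.SG
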