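import Pool.Agent.K6.H47.SG.Auto
import Pool.Agent.K6.H47.SG.Defs

set_option autoImplicit false

/-! # Regular sequences -/

namespace Pool.Agent.K6.H47.SG

open Matrix Pool.Agent.TH717.GO

theorem mem_prodSet_single {K : Type} [Field K] {r : ℕ} {I : Type} (A : I → Mt r K) (w : List I) :
    (w.map A).prod ∈ prodSet (fun i => {A i}) w := by
  induction w with
  | nil => exact rfl
  | cons i w ih => exact ⟨A i, rfl, _, ih, by rw [List.map_cons, List.prod_cons]⟩

theorem prodSet_single_eq {K : Type} [Field K] {r : ℕ} {I : Type} (A : I → Mt r K) (w : List I)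
    {z : Mt r K} (hz : z ∈ prodSet (fun i => {A i}) w) : z = (w.map A).prod := by
  induction w generalizing z with
  | nil => exact hz
  | cons i w ih =>
    obtain ⟨q, hq, y, hy, rfl⟩ := hz
    rw [show q = A i from hq, ih hy, List.map_cons, List.prod_cons]

/-- the output of a finite automaton reading the base `q` digits has a finite kernel -/
theorem kernel_finite {V st : Type} [Finite st] (q : ℕ) (hq : 2 ≤ q) (δ : ℕ → st → st) (s0 : st)
    (c : st → V) :
    (kernel q fun m => c ((Nat.digits q m).foldl (fun s j => δ j s) s0)).Finite := by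
  classical
  have key : ∀ (e : ℕ) (s : st) (j : ℕ), j < q ^ e → ∃ s' : st, ∀ m : ℕ, 1 ≤ m →
      (Nat.digits q (q ^ e * m + j)).foldl (fun s j => δ j s) s =
        (Nat.digits q m).foldl (fun s j => δ j s) s' := by
    intro e
    induction e with
    | zero =>
      intro s j hj
      rw [pow_zero, Nat.lt_one_iff] at hj
      subst hj
      exact ⟨s, fun m _ => by rw [pow_zero, one_mul, add_zero]⟩
    | succ e ih =>
      intro s j hj
      have hq0 : 0 < q := by omega
      have hj' : j / q < q ^ e := by
        rw [Nat.div_lt_iff_lt_mul hq0, ← pow_succ]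
        exact hj
      obtain ⟨s', hs'⟩ := ih (δ (j % q) s) (j / q) hj'
      refine ⟨s', fun m hm => ?_⟩
      have h1 : q ^ (e + 1) * m + j = j % q + q * (q ^ e * m + j / q) := by
        have := Nat.mod_add_div j q
        rw [pow_succ]
        nlinarith
      have hpos : 0 < q ^ e := Nat.pow_pos hq0
      rw [h1, Nat.digits_add q (by omega) _ _ (Nat.mod_lt _ hq0) (Or.inr (by
        exact (Nat.add_pos_left (Nat.mul_pos hpos hm) _).ne')), List.foldl_cons]
      exact hs' m hm
  have hfin : (Set.range fun p : st × st => fun m : ℕ =>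
      if m = 0 then c p.1 else c ((Nat.digits q m).foldl (fun s j => δ j s) p.2)).Finite :=
    Set.finite_range _
  refine hfin.subset ?_
  rintro _ ⟨e, j, hj, rfl⟩
  obtain ⟨s', hs'⟩ := key e s0 j hj
  refine ⟨((Nat.digits q j).foldl (fun s j => δ j s) s0, s'), ?_⟩
  funext m
  by_cases hm : m = 0
  · subst hm
    simp
  · simp only [hm, if_false]
    rw [hs' m (by omega)]

variable {K : Type} [Field K] {n : ℕ}

/-- **Regular sequences on the variety are automatic up to scalars.** -/
theorem regular_auto {k : Type} [Field k] {FF : Set (MvPolynomial (Fin (n + 1)) k)} [Algebra k K]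
    (hs : Setup k n FF K) (q : ℕ) (hq : 2 ≤ q) (x : ℕ → Fin (n + 1) → K)
    (hx : (Submodule.span K (kernel q x)).FG) (hX : ∀ m, x m ∈ cone FF K) :
    ∃ (s : ℕ → K) (c : ℕ → Fin (n + 1) → K), (kernel q c).Finite ∧ ∀ m, x m = s m • c m := by
  classical
  set V := Submodule.span K (kernel q x) with hV
  have hfin : Module.Finite K V := Module.Finite.iff_fg.2 hx
  have hq0 : 0 < q := by omega
  let D0 : ℕ → ((ℕ → Fin (n + 1) → K) →ₗ[K] (ℕ → Fin (n + 1) → K)) := fun j =>
    { toFun := fun f m => f (q * m + j)
      map_add' := fun _ _ => rfl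
      map_smul' := fun _ _ => rfl }
  have hD0 : ∀ j < q, ∀ f ∈ V, D0 j f ∈ V := by
    intro j hj f hf
    have h1 : V ≤ V.comap (D0 j) := by
      rw [hV, Submodule.span_le]
      rintro _ ⟨e, i, hi, rfl⟩
      refine Submodule.subset_span ⟨e + 1, q ^ e * j + i, ?_, ?_⟩
      · calc q ^ e * j + i < q ^ e * j + q ^ e := by omega
          _ = q ^ e * (j + 1) := by ring
          _ ≤ q ^ e * q := Nat.mul_le_mul_left _ hj
          _ = q ^ (e + 1) := (pow_succ _ _).symm
      · funext m
        change x (q ^ e * (q * m + j) + i) = x (q ^ (e + 1) * m + (q ^ e * j + i))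
        congr 1
        ring
    exact h1 hf
  have hxV : x ∈ V := Submodule.subset_span ⟨0, 0, by simp, by simp⟩
  let b := Module.finBasis K V
  set N := Module.finrank K V
  let D : Fin q → (V →ₗ[K] V) := fun j => (D0 j).restrict (hD0 j j.2)
  have hD : ∀ (j : Fin q) (f : V) (m : ℕ), ((D j f : V) : ℕ → Fin (n + 1) → K) m =
      (f : ℕ → Fin (n + 1) → K) (q * m + j) := fun _ _ _ => rfl
  let A : Fin q → Mt N K := fun j => LinearMap.toMatrix b b (D j)
  let M : Matrix (Fin (n + 1)) (Fin N) K := Matrix.of fun i a =>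
    ((b a : V) : ℕ → Fin (n + 1) → K) 0 i
  have hM : ∀ f : V, M.mulVec (b.repr f) = (f : ℕ → Fin (n + 1) → K) 0 := by
    intro f
    have h1 := b.sum_repr f
    have h2 := congrArg (fun f : V => (f : ℕ → Fin (n + 1) → K) 0) h1
    funext i
    have h3 := congrFun h2 i
    change _ = (f : ℕ → Fin (n + 1) → K) 0 i at h3
    rw [← h3, mulVec, dotProduct, Submodule.coe_sum, Finset.sum_apply, Finset.sum_apply]
    refine Finset.sum_congr rfl fun a _ => ?_
    change ((b a : V) : ℕ → Fin (n + 1) → K) 0 i * b.repr f a =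
      b.repr f a * ((b a : V) : ℕ → Fin (n + 1) → K) 0 i
    ring
  have hA : ∀ (j : Fin q) (f : V), (A j).mulVec (b.repr f) = b.repr (D j f) :=
    fun j f => LinearMap.toMatrix_mulVec_repr b b (D j) f
  have hword : ∀ (ds : List (Fin q)) (f : V), M.mulVec (((ds.reverse.map A).prod).mulVec
      (b.repr f)) = (f : ℕ → Fin (n + 1) → K) (Nat.ofDigits q (ds.map Fin.val)) := by
    intro ds
    induction ds with
    | nil =>
      intro f
      rw [List.reverse_nil, List.map_nil, List.prod_nil, one_mulVec, hM]
      rfl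
    | cons j ds ih =>
      intro f
      rw [List.reverse_cons, List.map_append, List.prod_append, List.map_singleton,
        List.prod_singleton, ← mulVec_mulVec, hA, ih, hD, List.map_cons, Nat.ofDigits_cons]
      refine congrArg (f : ℕ → Fin (n + 1) → K) ?_
      exact add_comm _ _
  obtain ⟨st, _, s0, δ, c, hc⟩ := auto_core hs (fun j : Fin q => {A j})
    (fun j => goodSet_singleton (A j)) M (b.repr ⟨x, hxV⟩) (by
      intro w z hz
      rw [prodSet_single_eq A w hz]
      have h1 := hword w.reverse ⟨x, hxV⟩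
      rw [List.reverse_reverse] at h1
      rw [h1]
      exact hX _)
  let δ' : ℕ → st → st := fun j s => if h : j < q then δ ⟨j, h⟩ s else s
  let c' : ℕ → Fin (n + 1) → K := fun m => c ((Nat.digits q m).foldl (fun s j => δ' j s) s0)
  have hmain : ∀ m, ∃ s : K, x m = s • c' m := by
    intro m
    let ds : List (Fin q) := (Nat.digits q m).map fun j => ⟨j % q, Nat.mod_lt _ hq0⟩
    have hlt : ∀ j ∈ Nat.digits q m, j < q := fun j hj => Nat.digits_lt_base (by omega) hj
    have hds : ds.map Fin.val = Nat.digits q m := by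
      rw [List.map_map]
      refine (List.map_congr_left fun j hj => ?_).trans (List.map_id _)
      exact Nat.mod_eq_of_lt (hlt j hj)
    obtain ⟨s, hs'⟩ := hc ds.reverse _ (mem_prodSet_single A ds.reverse)
    refine ⟨s, ?_⟩
    rw [hword ds ⟨x, hxV⟩, hds, Nat.ofDigits_digits] at hs'
    rw [show x m = ((⟨x, hxV⟩ : V) : ℕ → Fin (n + 1) → K) m from rfl, hs']
    congr 1
    change c _ = c _
    congr 1
    rw [List.foldr_reverse]
    have h2 : ∀ (l : List ℕ) (s : st), (∀ j ∈ l, j < q) →
        (l.map fun j => (⟨j % q, Nat.mod_lt _ hq0⟩ : Fin q)).foldl (fun x y => δ y x) s =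
          l.foldl (fun s j => δ' j s) s := by
      intro l
      induction l with
      | nil => intro s _; rfl
      | cons j l ih =>
        intro s hl
        rw [List.map_cons, List.foldl_cons, List.foldl_cons,
          ih _ fun i hi => hl i (List.mem_cons_of_mem _ hi)]
        congr 1
        have hj := hl j List.mem_cons_self
        change δ ⟨j % q, _⟩ s = if h : j < q then δ ⟨j, h⟩ s else s
        rw [dif_pos hj]
        congr 1
        exact Fin.ext (Nat.mod_eq_of_lt hj)
    exact h2 _ _ hlt
  choose s hs' using hmain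
  exact ⟨s, c', kernel_finite q hq δ' s0 c, hs'⟩

end Pool.Agent.K6.H47.SG
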