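import Pool.Agent.K6.H47.SG.Seq

set_option autoImplicit false

/-! # Regular languages of products of matrices -/

namespace Pool.Agent.K6.H47.SG

open Matrix Pool.Agent.TH717.GO

variable {K : Type} [Field K] {n r : ℕ}

section block

variable {A st : Type} [Fintype st] (D : DFA A st) {N : ℕ} (e : st × Fin r ≃ Fin N)

open Classical in
/-- the matrix of a letter with the states of an automaton -/
noncomputable def big (a : A) (B : Mt r K) : Mt N K :=
  Matrix.of fun x y => if (e.symm y).1 = D.step (e.symm x).1 a then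
    B (e.symm x).2 (e.symm y).2 else 0

open Classical in
theorem big_prod (w : List (A × Mt r K)) (x y : Fin N) :
    (w.map fun p => big D e p.1 p.2).prod x y =
      if (e.symm y).1 = D.evalFrom (e.symm x).1 (w.map Prod.fst) then
        (w.map Prod.snd).prod (e.symm x).2 (e.symm y).2 else 0 := by
  induction w generalizing x with
  | nil =>
    rw [List.map_nil, List.map_nil, List.map_nil, List.prod_nil, List.prod_nil, DFA.evalFrom_nil]
    by_cases hxy : x = y
    · subst hxy
      simp
    · rw [one_apply_ne hxy]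
      by_cases h1 : (e.symm y).1 = (e.symm x).1
      · rw [if_pos h1, one_apply_ne]
        intro h2
        exact hxy (e.symm.injective (Prod.ext h1.symm h2))
      · rw [if_neg h1]
  | cons p w ih =>
    rw [List.map_cons, List.prod_cons, mul_apply, List.map_cons, List.map_cons, List.prod_cons,
      DFA.evalFrom_cons, mul_apply, ← e.sum_comp, Fintype.sum_prod_type,
      Finset.sum_eq_single (D.step (e.symm x).1 p.1)]
    · simp only [ih]
      unfold big
      simp only [Matrix.of_apply, Equiv.symm_apply_apply, if_true]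
      by_cases h1 : (e.symm y).1 = D.evalFrom (D.step (e.symm x).1 p.1) (w.map Prod.fst)
      · simp only [h1, if_true]
      · simp only [h1, if_false, mul_zero, Finset.sum_const_zero]
    · intro s _ hs
      refine Finset.sum_eq_zero fun i _ => ?_
      unfold big
      simp only [Matrix.of_apply, Equiv.symm_apply_apply]
      rw [if_neg hs, zero_mul]
    · intro h
      exact absurd (Finset.mem_univ _) h

open Classical in
/-- with the accepting states -/
theorem big_vec (M : Matrix (Fin (n + 1)) (Fin r) K) (v : Fin r → K) (w : List (A × Mt r K)) :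
    (Matrix.of fun i x => if (e.symm x).1 = D.start then M i (e.symm x).2 else 0 :
      Matrix (Fin (n + 1)) (Fin N) K).mulVec ((w.map fun p => big D e p.1 p.2).prod.mulVec
        fun y => if (e.symm y).1 ∈ D.accept then v (e.symm y).2 else 0) =
      if w.map Prod.fst ∈ D.accepts then M.mulVec ((w.map Prod.snd).prod.mulVec v) else 0 := by
  have h1 : ∀ x, ((w.map fun p => big D e p.1 p.2).prod.mulVec
        fun y => if (e.symm y).1 ∈ D.accept then v (e.symm y).2 else 0) x =
      if D.evalFrom (e.symm x).1 (w.map Prod.fst) ∈ D.accept then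
        ((w.map Prod.snd).prod.mulVec v) (e.symm x).2 else 0 := by
    intro x
    rw [mulVec, dotProduct, ← e.sum_comp, Fintype.sum_prod_type,
      Finset.sum_eq_single (D.evalFrom (e.symm x).1 (w.map Prod.fst))]
    · simp only [big_prod, Equiv.symm_apply_apply, if_true]
      by_cases h2 : D.evalFrom (e.symm x).1 (w.map Prod.fst) ∈ D.accept
      · simp only [h2, if_true]
        rfl
      · simp only [h2, if_false, mul_zero, Finset.sum_const_zero]
    · intro s _ hs
      refine Finset.sum_eq_zero fun i _ => ?_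
      simp only [big_prod, Equiv.symm_apply_apply]
      rw [if_neg hs, zero_mul]
    · intro h
      exact absurd (Finset.mem_univ _) h
  funext i
  rw [mulVec, dotProduct, ← e.sum_comp, Fintype.sum_prod_type, Finset.sum_eq_single D.start]
  · simp only [h1, Matrix.of_apply, Equiv.symm_apply_apply, if_true]
    have h3 : w.map Prod.fst ∈ D.accepts ↔ D.evalFrom D.start (w.map Prod.fst) ∈ D.accept :=
      Iff.rfl
    by_cases h2 : D.evalFrom D.start (w.map Prod.fst) ∈ D.accept
    · rw [if_pos (h3.2 h2)]
      simp only [h2, if_true]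
      rfl
    · rw [if_neg (fun h => h2 (h3.1 h))]
      simp only [h2, if_false, mul_zero, Finset.sum_const_zero]
      rfl
  · intro s _ hs
    refine Finset.sum_eq_zero fun j _ => ?_
    simp only [Matrix.of_apply, Equiv.symm_apply_apply]
    rw [if_neg hs, zero_mul]
  · intro h
    exact absurd (Finset.mem_univ _) h

end block

/-- **Regular languages of products of matrices on the variety.** -/
theorem words_lines {k : Type} [Field k] {FF : Set (MvPolynomial (Fin (n + 1)) k)} [Algebra k K]
    (hs : Setup k n FF K) (h0 : (0 : Fin (n + 1) → K) ∈ cone FF K) {A : Type} [Finite A]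
    {H : A → Type} [∀ a, Group (H a)] {d : A → ℕ} (ρ : ∀ a, H a →* GL (Fin (d a)) K)
    (P : ∀ a, Fin r → Fin r → MvPolynomial (Fin (d a) × Fin (d a)) K)
    (M : Matrix (Fin (n + 1)) (Fin r) K) (v : Fin r → K) (𝓛 : Language A) (hreg : 𝓛.IsRegular)
    (hX : ∀ w : List (Σ a, H a), w.map Sigma.fst ∈ 𝓛 → wordVec ρ P M v w ∈ cone FF K) :
    ∃ C : Set (Fin (n + 1) → K), C.Finite ∧ ∀ w : List (Σ a, H a), w.map Sigma.fst ∈ 𝓛 →
      ∃ c ∈ C, ∃ s : K, wordVec ρ P M v w = s • c := by
  classical
  obtain ⟨st, _, D, rfl⟩ := hreg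
  let e : st × Fin r ≃ Fin (Fintype.card (st × Fin r)) := Fintype.equivFin _
  choose Ng Ig hirr hcos using fun a => exists_irr (ρ a)
  let I : Type := Σ a, Ig a
  have : Finite I := by
    have : Fintype A := Fintype.ofFinite A
    infer_instance
  let Q : I → Set (Mt (Fintype.card (st × Fin r)) K) := fun i =>
    Set.range fun t : Ng i.1 => big D e i.1 (letterMat ρ P ⟨i.1, (i.2 : H i.1) * t⟩)
  have hQ : ∀ i, GoodSet (cone FF K) (Q i) := by
    rintro ⟨a, g⟩
    refine ⟨Ng a, pol ((ρ a).comp (Ng a).subtype), _, hs.good _ (hirr a), ?_, rfl⟩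
    intro x y
    change (fun t : Ng a => if (e.symm y).1 = D.step (e.symm x).1 a then
      letterMat ρ P ⟨a, (g : H a) * t⟩ (e.symm x).2 (e.symm y).2 else 0) ∈ _
    by_cases h1 : (e.symm y).1 = D.step (e.symm x).1 a
    · simp only [h1, if_true]
      have h2 : Ent (pol ((ρ a).comp (Ng a).subtype))
          fun t : Ng a => (ρ a ((g : H a) * t) : Mt (d a) K) := by
        have h3 := Ent.mul (Ent.const (pol ((ρ a).comp (Ng a).subtype)) (ρ a (g : H a)).1)
          (pol_ent ((ρ a).comp (Ng a).subtype))
        have h4 : (fun t : Ng a => (ρ a ((g : H a) * t) : Mt (d a) K)) =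
            fun t : Ng a => (ρ a (g : H a)).1 * (((ρ a).comp (Ng a).subtype) t).1 := by
          funext t
          rw [map_mul, GeneralLinearGroup.coe_mul]
          rfl
        rw [h4]
        exact h3
      exact sub_mem_poly (k := K) (pol ((ρ a).comp (Ng a).subtype))
        (fun (t : Ng a) (p : Fin (d a) × Fin (d a)) =>
          (ρ a ((g : H a) * t) : Mt (d a) K) p.1 p.2) (fun p => h2 p.1 p.2)
        (P a (e.symm x).2 (e.symm y).2)
    · simp only [h1, if_false]
      exact const_mem _ 0
  -- the matrices of the words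
  have hval : ∀ w : List (Σ a, H a),
      (Matrix.of fun i x => if (e.symm x).1 = D.start then M i (e.symm x).2 else 0 :
        Matrix (Fin (n + 1)) (Fin (Fintype.card (st × Fin r))) K).mulVec
        ((w.map fun x => big D e x.1 (letterMat ρ P x)).prod.mulVec
        fun y => if (e.symm y).1 ∈ D.accept then v (e.symm y).2 else 0) =
      if w.map Sigma.fst ∈ D.accepts then wordVec ρ P M v w else 0 := by
    intro w
    have h1 := big_vec D e M v (w.map fun x => (x.1, letterMat ρ P x))
    rw [List.map_map, List.map_map, List.map_map] at h1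
    exact h1
  have hmem : ∀ (wI : List I) (z : Mt (Fintype.card (st × Fin r)) K), z ∈ prodSet Q wI →
      ∃ w : List (Σ a, H a), z = (w.map fun x => big D e x.1 (letterMat ρ P x)).prod := by
    intro wI
    induction wI with
    | nil => exact fun z hz => ⟨[], hz⟩
    | cons i wI ih =>
      rintro _ ⟨_, ⟨t, rfl⟩, y, hy, rfl⟩
      obtain ⟨w, rfl⟩ := ih y hy
      exact ⟨⟨i.1, (i.2 : H i.1) * t⟩ :: w, by rw [List.map_cons, List.prod_cons]⟩
  obtain ⟨st', _, s0, δ, c, hc⟩ := auto_core hs Q hQ _ _ (fun wI z hz => by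
    obtain ⟨w, rfl⟩ := hmem wI z hz
    rw [hval w]
    by_cases h1 : w.map Sigma.fst ∈ D.accepts
    · rw [if_pos h1]
      exact hX w h1
    · rw [if_neg h1]
      exact h0)
  refine ⟨Set.range c, Set.finite_range c, fun w hw => ?_⟩
  choose sel hsel using fun x : Σ a, H a => hcos x.1 x.2
  have hin : ∀ w : List (Σ a, H a), (w.map fun x => big D e x.1 (letterMat ρ P x)).prod ∈
      prodSet Q (w.map fun x => (⟨x.1, ⟨sel x, (hsel x).1⟩⟩ : I)) := by
    intro w
    induction w with
    | nil => exact rfl
    | cons x w ih =>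
      refine ⟨_, ⟨⟨_, (hsel x).2⟩, rfl⟩, _, ih, ?_⟩
      rw [List.map_cons, List.prod_cons]
      congr 2
      change letterMat ρ P x = letterMat ρ P ⟨x.1, sel x * ((sel x)⁻¹ * x.2)⟩
      rw [mul_inv_cancel_left]
  obtain ⟨s, hs'⟩ := hc _ _ (hin w)
  rw [hval w, if_pos hw] at hs'
  exact ⟨_, ⟨_, rfl⟩, s, hs'⟩

end Pool.Agent.K6.H47.SG
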